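import Mathlib

set_option autoImplicit false

/-!
Bit sets coded by natural numbers: translation by xor, and a search for flats.
-/

namespace Pool.Agent.Helper56.PS

/-- all positions below `4096` -/
def full : ℕ := Nat.sub (Nat.pow (nat_lit 2) (nat_lit 4096)) (nat_lit 1)

/-- `2 ^ p` -/
def pw (p : ℕ) : ℕ := Nat.pow (nat_lit 2) p

/-- the positions below `4096` whose bit `p` is zero -/
def mk (p : ℕ) : ℕ := Nat.div full (Nat.succ (pw (pw p)))

/-- translation of a bit set by the vector `2 ^ p` -/
def swp (p X : ℕ) : ℕ :=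
  Nat.lor (Nat.shiftLeft (Nat.land X (mk p)) (pw p))
    (Nat.land (Nat.shiftRight X (pw p)) (mk p))

/-- the bit test used in kernel checks -/
def tb (X i : ℕ) : Bool := Nat.beq (Nat.land (Nat.shiftRight X i) (nat_lit 1)) (nat_lit 1)

theorem tb_eq (X i : ℕ) : tb X i = X.testBit i := by
  have h : tb X i = Nat.beq ((X >>> i) &&& 1) 1 := rfl
  rw [h, Nat.testBit, Nat.and_comm]
  have h2 : 1 &&& (X >>> i) < 2 := Nat.lt_of_le_of_lt Nat.and_le_left (by norm_num)
  interval_cases h3 : 1 &&& (X >>> i) <;> rfl

/-- bounded conjunction -/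
def allR (P : ℕ → Bool) (n : ℕ) : Bool :=
  Nat.rec (motive := fun _ => Bool) true (fun i ih => and ih (P i)) n

theorem allR_spec (P : ℕ → Bool) (n : ℕ) (h : allR P n = true) :
    ∀ i < n, P i = true := by
  induction n with
  | zero => intro i hi; omega
  | succ n ih =>
    have h' : (allR P n && P n) = true := h
    simp only [Bool.and_eq_true] at h'
    intro i hi
    rcases Nat.lt_succ_iff_lt_or_eq.mp hi with h1 | h1
    · exact ih h'.1 i h1
    · subst h1; exact h'.2

/-- kernel check of the masks -/
def mkCheck (p : ℕ) : Bool :=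
  allR (fun i => allR (fun j => Bool.xor (tb (mk p) (Nat.add (Nat.mul (nat_lit 64) i) j))
          (tb (Nat.add (Nat.mul (nat_lit 64) i) j) p)) (nat_lit 64)) (nat_lit 64)

theorem mk_all0 : mkCheck 0 = true := by decide +kernel
theorem mk_all1 : mkCheck 1 = true := by decide +kernel
theorem mk_all2 : mkCheck 2 = true := by decide +kernel
theorem mk_all3 : mkCheck 3 = true := by decide +kernel
theorem mk_all4 : mkCheck 4 = true := by decide +kernel
theorem mk_all5 : mkCheck 5 = true := by decide +kernel
theorem mk_all6 : mkCheck 6 = true := by decide +kernel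
theorem mk_all7 : mkCheck 7 = true := by decide +kernel
theorem mk_all8 : mkCheck 8 = true := by decide +kernel
theorem mk_all9 : mkCheck 9 = true := by decide +kernel
theorem mk_all10 : mkCheck 10 = true := by decide +kernel
theorem mk_all11 : mkCheck 11 = true := by decide +kernel

theorem mk_all (p : ℕ) (hp : p < 12) : mkCheck p = true := by
  interval_cases p
  · exact mk_all0
  · exact mk_all1
  · exact mk_all2
  · exact mk_all3
  · exact mk_all4
  · exact mk_all5
  · exact mk_all6
  · exact mk_all7
  · exact mk_all8
  · exact mk_all9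
  · exact mk_all10
  · exact mk_all11

theorem mk_testBit (p x : ℕ) (hp : p < 12) (hx : x < 4096) :
    (mk p).testBit x = !(x.testBit p) := by
  have h := mk_all p hp
  have h1 := allR_spec _ _ h (x / 64) (show x / 64 < 64 by omega)
  have h2 := allR_spec _ _ h1 (x % 64) (show x % 64 < 64 by omega)
  have h3 : Nat.add (Nat.mul 64 (x / 64)) (x % 64) = x := Nat.div_add_mod x 64
  rw [h3, tb_eq, tb_eq] at h2
  revert h2
  cases (mk p).testBit x <;> cases x.testBit p <;> simp

end Pool.Agent.Helper56.PS
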