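import Mathlib

set_option autoImplicit false

/-!
Partial spread functions of minus type, normal and weakly normal Boolean functions in
`2 * k` variables.
-/

namespace Pool.Agent.Helper56.PS

/-- `f` lies in the class of partial spread functions of minus type in `2 * k` variables:
there are `2 ^ (k - 1)` subspaces of dimension `k` meeting pairwise in `0` only, such that
`f x = 1` exactly when `x` is a nonzero vector of one of them. -/
def IsPSMinus (k : ℕ) (f : (Fin (2 * k) → ZMod 2) → ZMod 2) : Prop :=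
  ∃ E : Fin (2 ^ (k - 1)) → Submodule (ZMod 2) (Fin (2 * k) → ZMod 2),
    (∀ i, Module.finrank (ZMod 2) (E i) = k) ∧
    (∀ i j, i ≠ j → E i ⊓ E j = ⊥) ∧
    ∀ x, f x = 1 ↔ x ≠ 0 ∧ ∃ i, x ∈ E i

/-- `f` is normal: it is constant on some flat `c + V` of dimension `k`. -/
def IsNormal (k : ℕ) (f : (Fin (2 * k) → ZMod 2) → ZMod 2) : Prop :=
  ∃ (c : Fin (2 * k) → ZMod 2) (V : Submodule (ZMod 2) (Fin (2 * k) → ZMod 2)) (b : ZMod 2),
    Module.finrank (ZMod 2) V = k ∧ ∀ v ∈ V, f (c + v) = b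

/-- `f` is weakly normal: it is affine on some flat `c + V` of dimension `k`. -/
def IsWeaklyNormal (k : ℕ) (f : (Fin (2 * k) → ZMod 2) → ZMod 2) : Prop :=
  ∃ (a c : Fin (2 * k) → ZMod 2) (V : Submodule (ZMod 2) (Fin (2 * k) → ZMod 2)) (b : ZMod 2),
    Module.finrank (ZMod 2) V = k ∧ ∀ v ∈ V, f (c + v) = a ⬝ᵥ (c + v) + b

end Pool.Agent.Helper56.PS
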