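import Mathlib
import Pool.Agent.Helper56.PS.Bits

set_option autoImplicit false

/-!
A search for affine subspaces inside a bit set, and its correctness.
-/

namespace Pool.Agent.Helper56.PS

theorem xor_lt (x y : ℕ) (hx : x < 4096) (hy : y < 4096) : x ^^^ y < 4096 :=
  Nat.xor_lt_two_pow (n := 12) hx hy

theorem pw_eq (p : ℕ) : pw p = 2 ^ p := rfl

theorem pow_lt_bound (p : ℕ) (hp : p < 12) : 2 ^ p < 4096 := by
  calc 2 ^ p < 2 ^ 12 := Nat.pow_lt_pow_right (by norm_num) hp
    _ = 4096 := by norm_num

theorem add_two_pow (p x : ℕ) (h : x.testBit p = false) : x ^^^ 2 ^ p = x + 2 ^ p := by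
  have hx : x = 2 ^ p * (x / 2 ^ p) + x % 2 ^ p := (Nat.div_add_mod x (2 ^ p)).symm
  set a := x / 2 ^ p with ha
  set r := x % 2 ^ p with hr
  have hrl : r < 2 ^ p := Nat.mod_lt _ (by positivity)
  have hae : Even a := by
    have h1 : a.testBit 0 = false := by
      rw [ha, Nat.testBit_div_two_pow, zero_add, h]
    rw [Nat.testBit_zero] at h1
    rw [Nat.even_iff]
    have := Nat.mod_lt a (show 2 > 0 by norm_num)
    simp only [decide_eq_false_iff_not] at h1
    omega
  have e1 : x + 2 ^ p = 2 ^ p * (a ^^^ 1) + r := by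
    rw [Nat.xor_one_of_even hae, hx]; ring
  apply Nat.eq_of_testBit_eq
  intro j
  rw [e1, Nat.testBit_xor, Nat.testBit_two_pow, hx, Nat.testBit_two_pow_mul_add _ hrl,
    Nat.testBit_two_pow_mul_add _ hrl]
  by_cases hj : j < p
  · rw [if_pos hj, if_pos hj]
    have : ¬ p = j := by omega
    simp [this]
  · rw [if_neg hj, if_neg hj, Nat.testBit_xor]
    congr 1
    have h2 : (1 : ℕ) = 2 ^ 0 := rfl
    rw [h2, Nat.testBit_two_pow]
    have : (p = j) ↔ (0 = j - p) := by omega
    simp [this]

theorem testBit_xor_self (p x : ℕ) : (x ^^^ 2 ^ p).testBit p = !(x.testBit p) := by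
  rw [Nat.testBit_xor, Nat.testBit_two_pow]; simp

theorem swp_testBit (p X x : ℕ) (hp : p < 12) (hx : x < 4096) :
    (swp p X).testBit x = X.testBit (x ^^^ 2 ^ p) := by
  have h0 : swp p X = ((X &&& mk p) <<< (2 ^ p)) ||| ((X >>> (2 ^ p)) &&& mk p) := rfl
  have hpl : 2 ^ p < 4096 := pow_lt_bound p hp
  rw [h0, Nat.testBit_or, Nat.testBit_and, Nat.testBit_shiftLeft, Nat.testBit_shiftRight,
    Nat.testBit_and, mk_testBit p x hp hx]
  cases hb : x.testBit p with
  | false =>
    rw [add_two_pow p x hb]
    by_cases hx2 : x ≥ 2 ^ p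
    · have h3 : (x - 2 ^ p).testBit p = true := by
        by_contra h4
        have h4' : (x - 2 ^ p).testBit p = false := by simpa using h4
        have h5 := add_two_pow p (x - 2 ^ p) h4'
        have h6 := testBit_xor_self p (x - 2 ^ p)
        rw [h5, h4', Nat.sub_add_cancel hx2, hb] at h6
        simp at h6
      rw [mk_testBit p _ hp (Nat.lt_of_le_of_lt (Nat.sub_le _ _) hx), h3]
      simp [Nat.add_comm]
    · simp [hx2, Nat.add_comm]
  | true =>
    have h7 : (x ^^^ 2 ^ p).testBit p = false := by rw [testBit_xor_self, hb]; rfl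
    have h8 := add_two_pow p _ h7
    rw [Nat.xor_assoc, Nat.xor_self, Nat.xor_zero] at h8
    have h9 : x ≥ 2 ^ p := by omega
    have h10 : x - 2 ^ p = x ^^^ 2 ^ p := by omega
    rw [h10, mk_testBit p _ hp (xor_lt _ _ hx hpl), h7]
    simp [h9]

/-- run `k` on all translates of `Y` by vectors supported on `l` -/
def enum (k : ℕ → Bool) (l : List ℕ) : ℕ → Bool :=
  List.rec (motive := fun _ => ℕ → Bool) k (fun p _ ih Y => and (ih Y) (ih (swp p Y))) l

/-- all bits of `v` lie in `l` -/
def Supp (l : List ℕ) (v : ℕ) : Prop := ∀ i, v.testBit i = true → i ∈ l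

theorem supp_lt (l : List ℕ) (hl : ∀ p ∈ l, p < 12) (v : ℕ) (hv : Supp l v) : v < 4096 := by
  apply Nat.lt_pow_two_of_testBit (n := 12)
  intro i hi
  by_contra hc
  have := hl i (hv i (by simpa using hc))
  omega

theorem enum_spec (k : ℕ → Bool) (l : List ℕ) (hl : ∀ p ∈ l, p < 12) (Y : ℕ)
    (h : enum k l Y = true) (v : ℕ) (hv : Supp l v) :
    ∃ Z, (∀ x < 4096, Z.testBit x = Y.testBit (x ^^^ v)) ∧ k Z = true := by
  induction l generalizing Y v with
  | nil =>
    have hv0 : v = 0 := by
      apply Nat.eq_of_testBit_eq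
      intro i
      rw [Nat.zero_testBit]
      by_contra hc
      have := hv i (by simpa using hc)
      simp at this
    refine ⟨Y, ?_, h⟩
    intro x _
    rw [hv0, Nat.xor_zero]
  | cons p l ih =>
    have h' : (enum k l Y && enum k l (swp p Y)) = true := h
    simp only [Bool.and_eq_true] at h'
    have hl' : ∀ q ∈ l, q < 12 := fun q hq => hl q (List.mem_cons_of_mem _ hq)
    have hp : p < 12 := hl p List.mem_cons_self
    by_cases hb : v.testBit p = true
    · by_cases hpl : p ∈ l
      · refine ih hl' Y h'.1 v ?_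
        intro i hi
        rcases List.mem_cons.mp (hv i hi) with h1 | h1
        · rw [h1]; exact hpl
        · exact h1
      · have hv2 : Supp l (v ^^^ 2 ^ p) := by
          intro i hi
          by_cases hip : p = i
          · subst hip
            rw [testBit_xor_self, hb] at hi
            simp at hi
          · rw [Nat.testBit_xor, Nat.testBit_two_pow] at hi
            simp only [hip, decide_false, Bool.xor_false] at hi
            rcases List.mem_cons.mp (hv i hi) with h1 | h1
            · exact absurd h1.symm hip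
            · exact h1
        obtain ⟨Z, hZ, hk⟩ := ih hl' (swp p Y) h'.2 _ hv2
        refine ⟨Z, ?_, hk⟩
        intro x hx
        have hvl : v < 4096 := supp_lt _ hl v hv
        rw [hZ x hx, swp_testBit p Y _ hp (xor_lt _ _ hx (xor_lt _ _ hvl (pow_lt_bound p hp)))]
        congr 1
        rw [Nat.xor_assoc, Nat.xor_assoc, Nat.xor_self, Nat.xor_zero]
    · refine ih hl' Y h'.1 v ?_
      intro i hi
      rcases List.mem_cons.mp (hv i hi) with h1 | h1
      · rw [h1] at hi; exact absurd hi hb
      · exact h1

/-- run `k` on all sets of representatives of `X` meeting its translate by `v`, where `v` is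
supported on `l`; the first argument of `k` is the pivot of `v` -/
def lev (k : ℕ → ℕ → Bool) (X : ℕ) (l : List ℕ) : Bool :=
  List.rec (motive := fun _ => Bool) true
    (fun p pre ih => and ih
      (enum (fun Y => k p (Nat.land (Nat.land X Y) (mk p))) pre (swp p X))) l

theorem lev_spec (k : ℕ → ℕ → Bool) (X : ℕ) (l : List ℕ) (hl : ∀ p ∈ l, p < 12)
    (h : lev k X l = true) (v : ℕ) (hv : Supp l v) (hv0 : v ≠ 0) :
    ∃ p ∈ l, v.testBit p = true ∧ ∃ Z, (∀ x < 4096, Z.testBit x =
      ((X.testBit x && X.testBit (x ^^^ v)) && !(x.testBit p))) ∧ k p Z = true := by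
  induction l with
  | nil =>
    exfalso
    apply hv0
    apply Nat.eq_of_testBit_eq
    intro i
    rw [Nat.zero_testBit]
    by_contra hc
    have := hv i (by simpa using hc)
    simp at this
  | cons p l ih =>
    have h' : (lev k X l &&
      enum (fun Y => k p (Nat.land (Nat.land X Y) (mk p))) l (swp p X)) = true := h
    simp only [Bool.and_eq_true] at h'
    have hl' : ∀ q ∈ l, q < 12 := fun q hq => hl q (List.mem_cons_of_mem _ hq)
    have hp : p < 12 := hl p List.mem_cons_self
    by_cases hb : v.testBit p = true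
    · by_cases hpl : p ∈ l
      · have hv2 : Supp l v := by
          intro i hi
          rcases List.mem_cons.mp (hv i hi) with h1 | h1
          · rw [h1]; exact hpl
          · exact h1
        obtain ⟨q, hq, h2⟩ := ih hl' h'.1 hv2
        exact ⟨q, List.mem_cons_of_mem _ hq, h2⟩
      · refine ⟨p, List.mem_cons_self, hb, ?_⟩
        have hv2 : Supp l (v ^^^ 2 ^ p) := by
          intro i hi
          by_cases hip : p = i
          · subst hip
            rw [testBit_xor_self, hb] at hi
            simp at hi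
          · rw [Nat.testBit_xor, Nat.testBit_two_pow] at hi
            simp only [hip, decide_false, Bool.xor_false] at hi
            rcases List.mem_cons.mp (hv i hi) with h1 | h1
            · exact absurd h1.symm hip
            · exact h1
        obtain ⟨Z, hZ, hk⟩ := enum_spec _ l hl' _ h'.2 _ hv2
        refine ⟨_, ?_, hk⟩
        intro x hx
        have hvl : v < 4096 := supp_lt _ hl v hv
        have e : Nat.land (Nat.land X Z) (mk p) = (X &&& Z) &&& mk p := rfl
        rw [e, Nat.testBit_and, Nat.testBit_and, mk_testBit p x hp hx, hZ x hx,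
          swp_testBit p X _ hp (xor_lt _ _ hx (xor_lt _ _ hvl (pow_lt_bound p hp)))]
        congr 3
        rw [Nat.xor_assoc, Nat.xor_assoc, Nat.xor_self, Nat.xor_zero]
    · have hv2 : Supp l v := by
        intro i hi
        rcases List.mem_cons.mp (hv i hi) with h1 | h1
        · rw [h1] at hi; exact absurd hi hb
        · exact h1
      obtain ⟨q, hq, h2⟩ := ih hl' h'.1 hv2
      exact ⟨q, List.mem_cons_of_mem _ hq, h2⟩

/-- remove the least element -/
def clr (X : ℕ) : ℕ := Nat.land X (Nat.sub X (nat_lit 1))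

theorem clr_spec (X : ℕ) : ∃ b, ∀ x, x ≠ b → X.testBit x = true → (clr X).testBit x = true := by
  induction X using Nat.strong_induction_on with
  | _ X ih =>
    have e : clr X = X &&& (X - 1) := rfl
    by_cases h0 : X = 0
    · subst h0; exact ⟨0, fun x _ h => by simp at h⟩
    rcases Nat.even_or_odd' X with ⟨q, hq | hq⟩
    · obtain ⟨b, hb⟩ := ih q (by omega)
      refine ⟨b + 1, ?_⟩
      intro x hx hX
      rw [e, Nat.testBit_and, hX, Bool.true_and]
      cases x with
      | zero => rw [hq] at hX; simp at hX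
      | succ y =>
        have h1 := hb y (by omega)
        have e2 : clr q = q &&& (q - 1) := rfl
        rw [e2, Nat.testBit_and] at h1
        rw [Nat.testBit_succ] at hX ⊢
        have e3 : X / 2 = q := by omega
        have e4 : (X - 1) / 2 = q - 1 := by omega
        rw [e3] at hX
        rw [e4]
        have h2 := h1 hX
        rw [hX, Bool.true_and] at h2
        exact h2
    · refine ⟨0, ?_⟩
      intro x hx hX
      rw [e, Nat.testBit_and, hX, Bool.true_and]
      cases x with
      | zero => exact absurd rfl hx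
      | succ y =>
        rw [Nat.testBit_succ] at hX ⊢
        have e3 : (X - 1) / 2 = X / 2 := by omega
        rw [e3]; exact hX

/-- does the set have at most `n` elements -/
def few (n : ℕ) : ℕ → Bool :=
  Nat.rec (motive := fun _ => ℕ → Bool) (fun X => Nat.beq X (nat_lit 0))
    (fun _ ih X => ih (clr X)) n

theorem few_spec (n X : ℕ) (h : few n X = true) (D : Finset ℕ)
    (hD : ∀ x ∈ D, X.testBit x = true) : D.card ≤ n := by
  induction n generalizing X D with
  | zero =>
    have h' : X = 0 := Nat.eq_of_beq_eq_true h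
    rw [h'] at hD
    have : D = ∅ := by
      rw [Finset.eq_empty_iff_forall_notMem]
      intro x hx
      have := hD x hx
      simp at this
    rw [this]; simp
  | succ n ih =>
    have h' : few n (clr X) = true := h
    obtain ⟨b, hb⟩ := clr_spec X
    have h2 := ih (clr X) h' (D.erase b) (by
      intro x hx
      rw [Finset.mem_erase] at hx
      exact hb x hx.1 (hD x hx.2))
    have h3 := Finset.pred_card_le_card_erase (s := D) (a := b)
    omega

/-- `U` is a subspace of dimension `d` and `D` is a coset of it -/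
structure Pr (d : ℕ) (U D : Finset ℕ) : Prop where
  add : ∀ x ∈ U, ∀ y ∈ U, x ^^^ y ∈ U
  card : U.card = 2 ^ d
  ne : D.Nonempty
  tr : ∀ x ∈ D, ∀ u ∈ U, x ^^^ u ∈ D
  df : ∀ x ∈ D, ∀ y ∈ D, x ^^^ y ∈ U

theorem Pr.cardD {d : ℕ} {U D : Finset ℕ} (h : Pr d U D) : D.card = 2 ^ d := by
  obtain ⟨x, hx⟩ := h.ne
  rw [← h.card]
  apply Finset.card_bij (fun y _ => x ^^^ y)
  · intro y hy; exact h.df x hx y hy
  · intro y _ z _ hyz
    have := congrArg (fun t => x ^^^ t) hyz
    simpa [← Nat.xor_assoc] using this
  · intro u hu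
    refine ⟨x ^^^ u, h.tr x hx u hu, ?_⟩
    rw [← Nat.xor_assoc, Nat.xor_self, Nat.zero_xor]

/-- elements with bit `p` zero -/
def cut (p : ℕ) (U : Finset ℕ) : Finset ℕ := U.filter (fun x => x.testBit p = false)

theorem mem_cut (p : ℕ) (U : Finset ℕ) (x : ℕ) :
    x ∈ cut p U ↔ x ∈ U ∧ x.testBit p = false := by
  unfold cut; rw [Finset.mem_filter]

theorem Pr.step {d : ℕ} {U D : Finset ℕ} (h : Pr (d + 1) U D) (v p : ℕ) (hv : v ∈ U)
    (hp : v.testBit p = true) : Pr d (cut p U) (cut p D) := by
  have hxor : ∀ x y : ℕ, x.testBit p = false → y.testBit p = false →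
      (x ^^^ y).testBit p = false := by
    intro x y hx hy; rw [Nat.testBit_xor, hx, hy]; rfl
  refine ⟨?_, ?_, ?_, ?_, ?_⟩
  · intro x hx y hy
    rw [mem_cut] at hx hy ⊢
    exact ⟨h.add x hx.1 y hy.1, hxor _ _ hx.2 hy.2⟩
  · have h1 : (cut p U).card = (U.filter (fun x => ¬ x.testBit p = false)).card := by
      apply Finset.card_bij (fun x _ => x ^^^ v)
      · intro x hx
        rw [mem_cut] at hx
        rw [Finset.mem_filter]
        refine ⟨h.add x hx.1 v hv, ?_⟩
        rw [Nat.testBit_xor, hx.2, hp]; simp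
      · intro x _ y _ hxy
        have := congrArg (fun t => t ^^^ v) hxy
        simpa [Nat.xor_assoc] using this
      · intro x hx
        rw [Finset.mem_filter] at hx
        refine ⟨x ^^^ v, ?_, ?_⟩
        · rw [mem_cut]
          refine ⟨h.add x hx.1 v hv, ?_⟩
          rw [Nat.testBit_xor, hp]
          have := hx.2
          simp only [Bool.not_eq_false] at this
          rw [this]; rfl
        · rw [Nat.xor_assoc, Nat.xor_self, Nat.xor_zero]
    have h2 := Finset.card_filter_add_card_filter_not (s := U) (fun x => x.testBit p = false)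
    have h3 := h.card
    have h4 : (cut p U).card = (U.filter (fun x => x.testBit p = false)).card := rfl
    rw [pow_succ] at h3
    omega
  · obtain ⟨x, hx⟩ := h.ne
    by_cases hb : x.testBit p = false
    · exact ⟨x, (mem_cut _ _ _).mpr ⟨hx, hb⟩⟩
    · refine ⟨x ^^^ v, (mem_cut _ _ _).mpr ⟨h.tr x hx v hv, ?_⟩⟩
      rw [Nat.testBit_xor, hp]
      simp only [Bool.not_eq_false] at hb
      rw [hb]; rfl
  · intro x hx u hu
    rw [mem_cut] at hx hu ⊢
    exact ⟨h.tr x hx.1 u hu.1, hxor _ _ hx.2 hu.2⟩
  · intro x hx y hy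
    rw [mem_cut] at hx hy ⊢
    exact ⟨h.df x hx.1 y hy.1, hxor _ _ hx.2 hy.2⟩

theorem Pr.exists_cand {d : ℕ} {U D : Finset ℕ} (h : Pr (d + 1) U D) (S : List ℕ)
    (hS : S.length ≤ d) : ∃ v ∈ U, v ≠ 0 ∧ ∀ i ∈ S, v.testBit i = false := by
  have h1 : (Finset.univ : Finset (Fin S.length → Bool)).card < U.card := by
    rw [h.card, Finset.card_univ]
    simp only [Fintype.card_fun, Fintype.card_bool, Fintype.card_fin]
    exact Nat.pow_lt_pow_right (by norm_num) (by omega)
  obtain ⟨x, hx, y, hy, hxy, hf⟩ := Finset.exists_ne_map_eq_of_card_lt_of_maps_to h1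
    (f := fun x => fun i : Fin S.length => x.testBit (S.get i)) (fun a _ => Finset.mem_univ _)
  refine ⟨x ^^^ y, h.add x hx y hy, ?_, ?_⟩
  · intro h0
    exact hxy (Nat.xor_eq_zero_iff.mp h0)
  · intro i hi
    obtain ⟨j, hj⟩ := List.get_of_mem hi
    have : x.testBit (S.get j) = y.testBit (S.get j) := congrFun hf j
    rw [← hj, Nat.testBit_xor, this]
    simp

/-- search for a flat of dimension `d` with positions `e` inside `X`; the result `true`
means that there is none -/
def srch (d : ℕ) : List ℕ → ℕ → Bool :=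
  Nat.rec (motive := fun _ => List ℕ → ℕ → Bool) (fun _ X => Nat.beq X (nat_lit 0))
    (fun d ih e X => or (few (Nat.sub (pw (Nat.succ d)) (nat_lit 1)) X)
      (lev (fun p Z => ih (e.erase p) Z) X ((e.take (Nat.sub e.length d)).reverse))) d

theorem srch_spec (d : ℕ) (e : List ℕ) (he : ∀ p ∈ e, p < 12) (X : ℕ)
    (h : srch d e X = true) (U D : Finset ℕ) (hP : Pr d U D) (hU : ∀ u ∈ U, Supp e u)
    (hD : ∀ x ∈ D, x < 4096 ∧ X.testBit x = true) : False := by
  induction d generalizing e X U D with
  | zero =>
    have h' : X = 0 := Nat.eq_of_beq_eq_true h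
    obtain ⟨x, hx⟩ := hP.ne
    have := (hD x hx).2
    rw [h'] at this
    simp at this
  | succ d ih =>
    have h' : (few (2 ^ (d + 1) - 1) X ||
      lev (fun p Z => srch d (e.erase p) Z) X ((e.take (e.length - d)).reverse)) = true := h
    rw [Bool.or_eq_true] at h'
    rcases h' with h' | h'
    · have h1 := few_spec _ _ h' D (fun x hx => (hD x hx).2)
      rw [hP.cardD] at h1
      have : 0 < 2 ^ (d + 1) := by positivity
      omega
    · obtain ⟨v, hv, hv0, hvS⟩ := hP.exists_cand (e.drop (e.length - d)) (by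
        rw [List.length_drop]; omega)
      have hsupp : Supp ((e.take (e.length - d)).reverse) v := by
        intro i hi
        rw [List.mem_reverse]
        have h1 := hU v hv i hi
        rw [← List.take_append_drop (e.length - d) e, List.mem_append] at h1
        rcases h1 with h1 | h1
        · exact h1
        · rw [hvS i h1] at hi; simp at hi
      obtain ⟨p, hp, hvp, Z, hZ, hk⟩ := lev_spec _ X _ (by
        intro q hq
        rw [List.mem_reverse] at hq
        exact he q (List.mem_of_mem_take hq)) h' v hsupp hv0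
      refine ih (e.erase p) (fun q hq => he q (List.mem_of_mem_erase hq)) Z hk
        (cut p U) (cut p D) (hP.step v p hv hvp) ?_ ?_
      · intro u hu i hi
        rw [mem_cut] at hu
        have h1 := hU u hu.1 i hi
        have h2 : i ≠ p := by
          intro h3; rw [h3, hu.2] at hi; simp at hi
        exact (List.mem_erase_of_ne h2).mpr h1
      · intro x hx
        rw [mem_cut] at hx
        have h1 := hD x hx.1
        have h2 := hD (x ^^^ v) (hP.tr x hx.1 v hv)
        refine ⟨h1.1, ?_⟩
        rw [hZ x h1.1, h1.2, h2.2, hx.2]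
        rfl

end Pool.Agent.Helper56.PS
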