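import Mathlib
import Pool.Agent.Helper56.PS.Search
import Pool.Agent.Helper56.PS.Defs

set_option autoImplicit false

/-!
Vectors over the field with two elements coded by natural numbers.
-/

namespace Pool.Agent.Helper56.PS

/-- the vector coded by a number -/
def vec (n x : ℕ) : Fin n → ZMod 2 := fun i => if x.testBit i then 1 else 0

/-- the code of a vector -/
def cod (n : ℕ) (v : Fin n → ZMod 2) : ℕ := Nat.ofBits (fun i => decide (v i = 1))

theorem zmod2_cases (a : ZMod 2) : a = 0 ∨ a = 1 := by
  revert a; decide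

theorem vec_cod (n : ℕ) (v : Fin n → ZMod 2) : vec n (cod n v) = v := by
  funext i
  unfold vec cod
  rw [Nat.testBit_ofBits_lt _ _ i.isLt]
  rcases zmod2_cases (v i) with h | h
  · simp [h]
  · simp [h]

theorem cod_lt (n : ℕ) (v : Fin n → ZMod 2) : cod n v < 2 ^ n := Nat.ofBits_lt_two_pow _

theorem cod_vec (n x : ℕ) (hx : x < 2 ^ n) : cod n (vec n x) = x := by
  unfold vec cod
  have : (fun i : Fin n => decide ((if x.testBit i then (1 : ZMod 2) else 0) = 1)) =
      fun i : Fin n => x.testBit i := by
    funext i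
    cases x.testBit i <;> simp
  rw [this, Nat.ofBits_testBit, Nat.mod_eq_of_lt hx]

theorem vec_xor (n x y : ℕ) : vec n (x ^^^ y) = vec n x + vec n y := by
  funext i
  simp only [vec, Pi.add_apply, Nat.testBit_xor]
  cases x.testBit i <;> cases y.testBit i <;> decide

theorem vec_zero (n : ℕ) : vec n 0 = 0 := by
  funext i
  simp [vec]

theorem cod_add (n : ℕ) (u v : Fin n → ZMod 2) : cod n (u + v) = cod n u ^^^ cod n v := by
  have h1 : vec n (cod n u ^^^ cod n v) = u + v := by rw [vec_xor, vec_cod, vec_cod]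
  rw [← h1, cod_vec]
  exact Nat.xor_lt_two_pow (cod_lt n u) (cod_lt n v)

theorem cod_zero (n : ℕ) : cod n 0 = 0 := by
  rw [← vec_zero n, cod_vec]
  positivity

theorem eq_zero_of_cod (n : ℕ) (v : Fin n → ZMod 2) (h : cod n v = 0) : v = 0 := by
  rw [← vec_cod n v, h, vec_zero]

/-- all xor combinations of a list -/
def xs (g : List ℕ) : List ℕ :=
  List.rec (motive := fun _ => List ℕ) [nat_lit 0]
    (fun a _ ih => ih ++ ih.map (Nat.xor a)) g

theorem xs_cons (a : ℕ) (g : List ℕ) : xs (a :: g) = xs g ++ (xs g).map (a ^^^ ·) := rfl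

theorem xs_nil : xs [] = [0] := rfl

theorem zero_mem_xs (g : List ℕ) : 0 ∈ xs g := by
  induction g with
  | nil => simp [xs_nil]
  | cons a g ih => rw [xs_cons, List.mem_append]; exact Or.inl ih

theorem mem_xs_cons (a : ℕ) (g : List ℕ) (x : ℕ) :
    x ∈ xs (a :: g) ↔ x ∈ xs g ∨ a ^^^ x ∈ xs g := by
  rw [xs_cons, List.mem_append, List.mem_map]
  constructor
  · rintro (h | ⟨y, hy, rfl⟩)
    · exact Or.inl h
    · right
      rw [← Nat.xor_assoc, Nat.xor_self, Nat.zero_xor]; exact hy
  · rintro (h | h)
    · exact Or.inl h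
    · right
      exact ⟨a ^^^ x, h, by rw [← Nat.xor_assoc, Nat.xor_self, Nat.zero_xor]⟩

theorem xor_mem_xs (g : List ℕ) (x y : ℕ) (hx : x ∈ xs g) (hy : y ∈ xs g) : x ^^^ y ∈ xs g := by
  induction g generalizing x y with
  | nil =>
    rw [xs_nil, List.mem_singleton] at hx hy ⊢
    rw [hx, hy]; rfl
  | cons a g ih =>
    rw [mem_xs_cons] at hx hy ⊢
    rcases hx with hx | hx <;> rcases hy with hy | hy
    · exact Or.inl (ih x y hx hy)
    · right
      have := ih _ _ hx hy
      rwa [Nat.xor_left_comm] at this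
    · right
      have := ih _ _ hx hy
      rwa [Nat.xor_assoc] at this
    · left
      have := ih _ _ hx hy
      rwa [Nat.xor_assoc, Nat.xor_left_comm x, ← Nat.xor_assoc, Nat.xor_self,
        Nat.zero_xor] at this

/-- independence check for a list of generators -/
def indep (g : List ℕ) : Bool :=
  List.rec (motive := fun _ => Bool) true (fun a g ih => and ih (not ((xs g).elem a))) g

theorem indep_nodup (g : List ℕ) (h : indep g = true) : (xs g).Nodup := by
  induction g with
  | nil => rw [xs_nil]; simp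
  | cons a g ih =>
    have h' : (indep g && !((xs g).elem a)) = true := h
    simp only [Bool.and_eq_true, Bool.not_eq_true', List.elem_eq_mem,
      decide_eq_false_iff_not] at h'
    rw [xs_cons, List.nodup_append]
    refine ⟨ih h'.1, ?_, ?_⟩
    · apply List.Nodup.map _ (ih h'.1)
      intro x y hxy
      have := congrArg (fun t => a ^^^ t) hxy
      simpa [← Nat.xor_assoc] using this
    · intro x hx y hy hxy
      rw [List.mem_map] at hy
      obtain ⟨z, hz, rfl⟩ := hy
      apply h'.2
      have := xor_mem_xs g _ _ hx hz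
      rw [hxy, Nat.xor_assoc, Nat.xor_self, Nat.xor_zero] at this
      exact this

theorem xs_length (g : List ℕ) : (xs g).length = 2 ^ g.length := by
  induction g with
  | nil => rfl
  | cons a g ih =>
    rw [xs_cons, List.length_append, List.length_map, ih, List.length_cons, pow_succ]; ring

theorem xs_lt (n : ℕ) (g : List ℕ) (hg : ∀ a ∈ g, a < 2 ^ n) : ∀ x ∈ xs g, x < 2 ^ n := by
  induction g with
  | nil =>
    intro x hx
    rw [xs_nil, List.mem_singleton] at hx
    rw [hx]; positivity
  | cons a g ih =>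
    intro x hx
    have h1 := ih (fun b hb => hg b (List.mem_cons_of_mem _ hb))
    rw [mem_xs_cons] at hx
    rcases hx with hx | hx
    · exact h1 x hx
    · have h2 := Nat.xor_lt_two_pow (hg a List.mem_cons_self) (h1 _ hx)
      rwa [← Nat.xor_assoc, Nat.xor_self, Nat.zero_xor] at h2

/-- the subspace generated by a list of codes -/
def sub (n : ℕ) (g : List ℕ) : Submodule (ZMod 2) (Fin n → ZMod 2) where
  carrier := {v | cod n v ∈ xs g}
  add_mem' := by
    intro u v hu hv
    change cod n u ∈ xs g at hu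
    change cod n v ∈ xs g at hv
    change cod n (u + v) ∈ xs g
    rw [cod_add]
    exact xor_mem_xs g _ _ hu hv
  zero_mem' := by
    change cod n 0 ∈ xs g
    rw [cod_zero]
    exact zero_mem_xs g
  smul_mem' := by
    intro c v hv
    change cod n v ∈ xs g at hv
    change cod n (c • v) ∈ xs g
    rcases zmod2_cases c with h | h
    · rw [h, zero_smul, cod_zero]; exact zero_mem_xs g
    · rw [h, one_smul]; exact hv

theorem mem_sub (n : ℕ) (g : List ℕ) (v : Fin n → ZMod 2) : v ∈ sub n g ↔ cod n v ∈ xs g :=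
  Iff.rfl

open Classical in
theorem card_submodule (n : ℕ) (V : Submodule (ZMod 2) (Fin n → ZMod 2)) :
    ((Finset.range (2 ^ n)).filter (fun x => vec n x ∈ (V : Set (Fin n → ZMod 2)))).card =
      2 ^ Module.finrank (ZMod 2) V := by
  have h1 : Fintype.card V = 2 ^ Module.finrank (ZMod 2) V := by
    rw [Module.card_eq_pow_finrank (K := ZMod 2) (V := V), ZMod.card]
  rw [← h1, ← Fintype.card_coe]
  apply Fintype.card_congr
  refine ⟨fun x => ⟨vec n x.1, (Finset.mem_filter.mp x.2).2⟩,
    fun v => ⟨cod n v.1, Finset.mem_filter.mpr ⟨Finset.mem_range.mpr (cod_lt n v.1), ?_⟩⟩,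
    ?_, ?_⟩
  · rw [vec_cod]; exact v.2
  · intro x
    apply Subtype.ext
    exact cod_vec n x.1 (Finset.mem_range.mp (Finset.mem_filter.mp x.2).1)
  · intro v
    apply Subtype.ext
    exact vec_cod n v.1

open Classical in
theorem finrank_sub (n : ℕ) (g : List ℕ) (hg : ∀ a ∈ g, a < 2 ^ n) (hi : indep g = true) :
    Module.finrank (ZMod 2) (sub n g) = g.length := by
  have h1 := card_submodule n (sub n g)
  have h2 : (Finset.range (2 ^ n)).filter
      (fun x => vec n x ∈ ((sub n g : Submodule _ _) : Set (Fin n → ZMod 2))) =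
      (xs g).toFinset := by
    ext x
    rw [Finset.mem_filter, Finset.mem_range, List.mem_toFinset]
    constructor
    · rintro ⟨hx, h⟩
      have h3 : cod n (vec n x) ∈ xs g := h
      rwa [cod_vec n x hx] at h3
    · intro h
      have hx := xs_lt n g hg x h
      refine ⟨hx, ?_⟩
      change cod n (vec n x) ∈ xs g
      rwa [cod_vec n x hx]
  rw [h2, List.toFinset_card_of_nodup (indep_nodup g hi), xs_length] at h1
  exact (Nat.pow_right_injective (le_refl 2) h1).symm

/-- the bit set of a list -/
def mset (l : List ℕ) : ℕ :=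
  List.rec (motive := fun _ => ℕ) (nat_lit 0) (fun a _ ih => Nat.lor (pw a) ih) l

theorem mset_testBit (l : List ℕ) (x : ℕ) : (mset l).testBit x = true ↔ x ∈ l := by
  induction l with
  | nil =>
    have : mset [] = 0 := rfl
    rw [this]; simp
  | cons a l ih =>
    have : mset (a :: l) = 2 ^ a ||| mset l := rfl
    rw [this, Nat.testBit_or, Bool.or_eq_true, ih, List.mem_cons, Nat.testBit_two_pow]
    simp [eq_comm]

/-- the union of the subspaces generated by the members of a list -/
def uni (gs : List (List ℕ)) : ℕ :=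
  List.rec (motive := fun _ => ℕ) (nat_lit 0) (fun g _ ih => Nat.lor (mset (xs g)) ih) gs

theorem uni_testBit (gs : List (List ℕ)) (x : ℕ) :
    (uni gs).testBit x = true ↔ ∃ g ∈ gs, x ∈ xs g := by
  induction gs with
  | nil =>
    have : uni [] = 0 := rfl
    rw [this]; simp
  | cons g gs ih =>
    have : uni (g :: gs) = mset (xs g) ||| uni gs := rfl
    rw [this, Nat.testBit_or, Bool.or_eq_true, ih, mset_testBit]
    simp

/-- pairwise trivial intersections -/
def pwd (gs : List (List ℕ)) : Bool :=
  List.rec (motive := fun _ => Bool) true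
    (fun g gs ih => and ih (Nat.ble (Nat.land (mset (xs g)) (uni gs)) (nat_lit 1))) gs

theorem pwd_spec (gs : List (List ℕ)) (h : pwd gs = true) :
    gs.Pairwise (fun g k => ∀ x, x ∈ xs g → x ∈ xs k → x = 0) := by
  induction gs with
  | nil => exact List.Pairwise.nil
  | cons g gs ih =>
    have h' : (pwd gs && Nat.ble (mset (xs g) &&& uni gs) 1) = true := h
    rw [Bool.and_eq_true] at h'
    refine List.Pairwise.cons ?_ (ih h'.1)
    intro k hk x hx hxk
    have h1 : (mset (xs g) &&& uni gs) ≤ 1 := Nat.le_of_ble_eq_true h'.2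
    have h2 : (mset (xs g) &&& uni gs).testBit x = true := by
      rw [Nat.testBit_and, Bool.and_eq_true]
      exact ⟨(mset_testBit _ _).mpr hx, (uni_testBit _ _).mpr ⟨k, hk, hxk⟩⟩
    by_contra h3
    have h4 : (mset (xs g) &&& uni gs) < 2 ^ x := by
      calc _ ≤ 1 := h1
        _ < 2 ^ x := Nat.one_lt_two_pow h3
    rw [Nat.testBit_lt_two_pow h4] at h2
    exact absurd h2 (by simp)

/-- the Boolean function with support coded by `F` -/
def bf (n F : ℕ) (v : Fin n → ZMod 2) : ZMod 2 := if F.testBit (cod n v) then 1 else 0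

theorem bf_eq_one (n F : ℕ) (v : Fin n → ZMod 2) :
    bf n F v = 1 ↔ F.testBit (cod n v) = true := by
  unfold bf
  cases F.testBit (cod n v) <;> simp

/-- all checks needed for a partial spread function -/
def psCheck (k F : ℕ) (gs : List (List ℕ)) : Bool :=
  and (and (Nat.beq gs.length (pw (Nat.pred k))) (gs.all (fun g => and (Nat.beq g.length k)
    (and (indep g) (g.all (fun a => Nat.blt a (pw (Nat.mul (nat_lit 2) k))))))))
  (and (pwd gs) (and (Nat.beq (Nat.lor F (nat_lit 1)) (uni gs))
    (Nat.beq (Nat.land F (nat_lit 1)) (nat_lit 0))))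

theorem psCheck_spec (k F : ℕ) (gs : List (List ℕ)) (h : psCheck k F gs = true) :
    IsPSMinus k (bf (2 * k) F) := by
  unfold psCheck at h
  simp only [Bool.and_eq_true, List.all_eq_true] at h
  obtain ⟨⟨hl, hg⟩, hp, hF1, hF0⟩ := h
  have hl' : gs.length = 2 ^ (k - 1) := Nat.eq_of_beq_eq_true hl
  have hF1' : F ||| 1 = uni gs := Nat.eq_of_beq_eq_true hF1
  have hF0' : F &&& 1 = 0 := Nat.eq_of_beq_eq_true hF0
  have hlen : ∀ g ∈ gs, g.length = k := fun g hg' => Nat.eq_of_beq_eq_true (hg g hg').1
  have hind : ∀ g ∈ gs, indep g = true := fun g hg' => (hg g hg').2.1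
  have hlt : ∀ g ∈ gs, ∀ a ∈ g, a < 2 ^ (2 * k) := fun g hg' a ha =>
    Nat.le_of_ble_eq_true ((hg g hg').2.2 a ha)
  have hpw := pwd_spec gs hp
  have hget : ∀ i : Fin (2 ^ (k - 1)), gs[i.1]'(by rw [hl']; exact i.2) ∈ gs := fun i =>
    List.getElem_mem _
  refine ⟨fun i => sub (2 * k) (gs[i.1]'(by rw [hl']; exact i.2)), ?_, ?_, ?_⟩
  · intro i
    rw [finrank_sub _ _ (hlt _ (hget i)) (hind _ (hget i)), hlen _ (hget i)]
  · intro i j hij
    rw [List.pairwise_iff_getElem] at hpw
    rw [eq_bot_iff]
    intro v hv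
    rw [Submodule.mem_inf, mem_sub, mem_sub] at hv
    rw [Submodule.mem_bot]
    apply eq_zero_of_cod
    have hij' : i.1 ≠ j.1 := fun h => hij (Fin.ext h)
    rcases Nat.lt_or_gt_of_ne hij' with h | h
    · exact hpw i.1 j.1 _ _ h _ hv.1 hv.2
    · exact hpw j.1 i.1 _ _ h _ hv.2 hv.1
  · intro v
    rw [bf_eq_one]
    have hb : ∀ x, (uni gs).testBit x = (F.testBit x || decide (x = 0)) := by
      intro x
      rw [← hF1', Nat.testBit_or]
      congr 1
      have : (1 : ℕ) = 2 ^ 0 := rfl
      rw [this, Nat.testBit_two_pow]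
      simp [eq_comm]
    have hb0 : F.testBit 0 = false := by
      have h1 : (F &&& 1).testBit 0 = false := by rw [hF0']; simp
      rw [Nat.testBit_and] at h1
      simpa using h1
    constructor
    · intro hv
      refine ⟨?_, ?_⟩
      · intro h0
        rw [h0, cod_zero, hb0] at hv
        exact absurd hv (by simp)
      · have h1 : (uni gs).testBit (cod (2 * k) v) = true := by rw [hb, hv]; rfl
        rw [uni_testBit] at h1
        obtain ⟨g, hg', hx⟩ := h1
        obtain ⟨i, hi, hgi⟩ := List.getElem_of_mem hg'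
        refine ⟨⟨i, by rw [← hl']; exact hi⟩, ?_⟩
        rw [mem_sub]
        simp only [hgi]
        exact hx
    · rintro ⟨hv0, i, hi⟩
      rw [mem_sub] at hi
      have h1 : (uni gs).testBit (cod (2 * k) v) = true := by
        rw [uni_testBit]
        exact ⟨_, hget i, hi⟩
      rw [hb, Bool.or_eq_true] at h1
      rcases h1 with h1 | h1
      · exact h1
      · exact absurd (eq_zero_of_cod _ v (by simpa using h1)) hv0

end Pool.Agent.Helper56.PS
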