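import Mathlib
import Pool.Agent.Helper56.PS.Code

set_option autoImplicit false

/-!
From a flat of vectors to a flat of codes, and non-normality from the search.
-/

namespace Pool.Agent.Helper56.PS

open Classical in
/-- codes of the vectors of a subspace -/
noncomputable def codU (n : ℕ) (V : Submodule (ZMod 2) (Fin n → ZMod 2)) : Finset ℕ :=
  (Finset.range (2 ^ n)).filter (fun x => vec n x ∈ (V : Set (Fin n → ZMod 2)))

open Classical in
/-- codes of the vectors of a flat -/
noncomputable def codD (n : ℕ) (V : Submodule (ZMod 2) (Fin n → ZMod 2)) (c : Fin n → ZMod 2) :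
    Finset ℕ :=
  (Finset.range (2 ^ n)).filter (fun x => c + vec n x ∈ (V : Set (Fin n → ZMod 2)))

open Classical in
theorem mem_codU (n : ℕ) (V : Submodule (ZMod 2) (Fin n → ZMod 2)) (x : ℕ) :
    x ∈ codU n V ↔ x < 2 ^ n ∧ vec n x ∈ V := by
  unfold codU; rw [Finset.mem_filter, Finset.mem_range, SetLike.mem_coe]

open Classical in
theorem mem_codD (n : ℕ) (V : Submodule (ZMod 2) (Fin n → ZMod 2)) (c : Fin n → ZMod 2) (x : ℕ) :
    x ∈ codD n V c ↔ x < 2 ^ n ∧ c + vec n x ∈ V := by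
  unfold codD; rw [Finset.mem_filter, Finset.mem_range, SetLike.mem_coe]

theorem add_self_vec {n : ℕ} (v : Fin n → ZMod 2) : v + v = 0 := by
  funext i
  simp only [Pi.add_apply, Pi.zero_apply]
  generalize v i = a
  revert a; decide

theorem pr_cod (n d : ℕ) (V : Submodule (ZMod 2) (Fin n → ZMod 2)) (c : Fin n → ZMod 2)
    (hV : Module.finrank (ZMod 2) V = d) : Pr d (codU n V) (codD n V c) := by
  refine ⟨?_, ?_, ?_, ?_, ?_⟩
  · intro x hx y hy
    rw [mem_codU] at hx hy ⊢
    exact ⟨Nat.xor_lt_two_pow hx.1 hy.1, by rw [vec_xor]; exact V.add_mem hx.2 hy.2⟩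
  · have := card_submodule n V
    rw [hV] at this
    exact this
  · refine ⟨cod n c, ?_⟩
    rw [mem_codD, vec_cod, add_self_vec]
    exact ⟨cod_lt n c, V.zero_mem⟩
  · intro x hx u hu
    rw [mem_codD] at hx ⊢
    rw [mem_codU] at hu
    refine ⟨Nat.xor_lt_two_pow hx.1 hu.1, ?_⟩
    rw [vec_xor, ← add_assoc]
    exact V.add_mem hx.2 hu.2
  · intro x hx y hy
    rw [mem_codD] at hx hy
    rw [mem_codU]
    refine ⟨Nat.xor_lt_two_pow hx.1 hy.1, ?_⟩
    rw [vec_xor]
    have := V.add_mem hx.2 hy.2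
    rwa [add_add_add_comm, add_self_vec, zero_add] at this

theorem supp_range (n x : ℕ) (hx : x < 2 ^ n) : Supp (List.range n) x := by
  intro i hi
  rw [List.mem_range]
  by_contra hc
  have h1 : x < 2 ^ i := lt_of_lt_of_le hx (Nat.pow_le_pow_right (by norm_num) (by omega))
  rw [Nat.testBit_lt_two_pow h1] at hi
  exact absurd hi (by simp)

/-- A set of codes without flats gives a function which is not normal. -/
theorem not_normal (k F Fc : ℕ) (hk : 2 * k ≤ 12) (hc : F ^^^ Fc = 2 ^ (2 ^ (2 * k)) - 1)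
    (h1 : srch k (List.range (2 * k)) F = true)
    (h0 : srch k (List.range (2 * k)) Fc = true) : ¬ IsNormal k (bf (2 * k) F) := by
  rintro ⟨c, V, b, hV, hb⟩
  have hP := pr_cod (2 * k) k V c hV
  have hlt : ∀ x < 2 ^ (2 * k), x < 4096 := fun x hx =>
    lt_of_lt_of_le hx (show 2 ^ (2 * k) ≤ 2 ^ 12 from Nat.pow_le_pow_right (by norm_num) hk)
  have hval : ∀ x ∈ codD (2 * k) V c, x < 2 ^ (2 * k) ∧ bf (2 * k) F (vec (2 * k) x) = b := by
    intro x hx
    rw [mem_codD] at hx
    refine ⟨hx.1, ?_⟩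
    have := hb _ hx.2
    rwa [← add_assoc, add_self_vec, zero_add] at this
  have hU : ∀ u ∈ codU (2 * k) V, Supp (List.range (2 * k)) u := by
    intro u hu
    rw [mem_codU] at hu
    exact supp_range _ _ hu.1
  have he : ∀ p ∈ List.range (2 * k), p < 12 := by
    intro p hp
    rw [List.mem_range] at hp
    omega
  rcases zmod2_cases b with hb0 | hb1
  · refine srch_spec k (List.range (2 * k)) he Fc h0 _ _ hP hU ?_
    intro x hx
    obtain ⟨hx1, hx2⟩ := hval x hx
    refine ⟨hlt x hx1, ?_⟩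
    have h2 : (F ^^^ Fc).testBit x = true := by
      rw [hc, Nat.testBit_two_pow_sub_one]
      simpa using hx1
    have h3 : F.testBit x = false := by
      by_contra h4
      have h5 : bf (2 * k) F (vec (2 * k) x) = 1 := by
        rw [bf_eq_one, cod_vec _ _ hx1]; simpa using h4
      rw [h5, hb0] at hx2
      exact absurd hx2 (by decide)
    rw [Nat.testBit_xor, h3] at h2
    simpa using h2
  · refine srch_spec k (List.range (2 * k)) he F h1 _ _ hP hU ?_
    intro x hx
    obtain ⟨hx1, hx2⟩ := hval x hx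
    refine ⟨hlt x hx1, ?_⟩
    rw [hb1, bf_eq_one, cod_vec _ _ hx1] at hx2
    exact hx2

theorem enum_cons (k : ℕ → Bool) (p : ℕ) (l : List ℕ) (Y : ℕ) (h1 : enum k l Y = true)
    (h2 : enum k l (swp p Y) = true) : enum k (p :: l) Y = true := by
  change (enum k l Y && enum k l (swp p Y)) = true
  rw [h1, h2]; rfl

theorem lev_cons (k : ℕ → ℕ → Bool) (X p : ℕ) (l : List ℕ) (h1 : lev k X l = true)
    (h2 : enum (fun Y => k p (Nat.land (Nat.land X Y) (mk p))) l (swp p X) = true) :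
    lev k X (p :: l) = true := by
  change (lev k X l &&
      enum (fun Y => k p (Nat.land (Nat.land X Y) (mk p))) l (swp p X)) = true
  rw [h1, h2]; rfl

/-- one part of the search in ten variables -/
def part (X p : ℕ) (l : List ℕ) (Y : ℕ) : Bool :=
  enum (fun Y => srch 4 ([0, 1, 2, 3, 4, 5, 6, 7, 8, 9].erase p)
    (Nat.land (Nat.land X Y) (mk p))) l Y

theorem srch_of_parts (X : ℕ)
    (h0 : lev (fun p Z => srch 4 ([0, 1, 2, 3, 4, 5, 6, 7, 8, 9].erase p) Z) X
      [2, 1, 0] = true)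
    (h3 : part X 3 [2, 1, 0] (swp 3 X) = true)
    (h40 : part X 4 [2, 1, 0] (swp 4 X) = true)
    (h41 : part X 4 [2, 1, 0] (swp 3 (swp 4 X)) = true)
    (h50 : part X 5 [2, 1, 0] (swp 5 X) = true)
    (h51 : part X 5 [2, 1, 0] (swp 3 (swp 5 X)) = true)
    (h52 : part X 5 [2, 1, 0] (swp 4 (swp 5 X)) = true)
    (h53 : part X 5 [2, 1, 0] (swp 3 (swp 4 (swp 5 X))) = true) :
    srch 5 (List.range 10) X = true := by
  change (few _ X || lev (fun p Z => srch 4 ([0, 1, 2, 3, 4, 5, 6, 7, 8, 9].erase p) Z) X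
      [5, 4, 3, 2, 1, 0]) = true
  rw [Bool.or_eq_true]
  right
  refine lev_cons _ _ _ _ (lev_cons _ _ _ _ (lev_cons _ _ _ _ h0 h3) ?_) ?_
  · exact enum_cons _ _ _ _ h40 h41
  · exact enum_cons _ _ _ _ (enum_cons _ _ _ _ h50 h51) (enum_cons _ _ _ _ h52 h53)

end Pool.Agent.Helper56.PS
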