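import Mathlib
import Pool.Agent.Helper56.PS.Normal

set_option autoImplicit false

/-!
Data and kernel checks for a function in ten variables.
-/

namespace Pool.Agent.Helper56.PS

/-- support of the function -/
def F10 : ℕ := nat_lit 0xb5204b3dd80748b72422f62f5c0db5612e4887f16f192c89b71780594927a7153a94d62923e06b53a3ba87039f53108dccbc4859246c70f3b3474d4142f50579d3b0e4a144e5c927888b2d5d72c892abcc0c9a8f59983e43188b52eb2cf931c1c9626497a27a2a55d102c9e7179670953545938b4272ba1d80dd1d27fffffffe

/-- complement of the support -/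
def G10 : ℕ := nat_lit 0x4adfb4c227f8b748dbdd09d0a3f24a9ed1b7780e90e6d37648e87fa6b6d858eac56b29d6dc1f94ac5c4578fc60acef723343b7a6db938f0c4cb8b2bebd0afa862c4f1b5ebb1a36d87774d2a28d376d5433f36570a667c1bce774ad14d306ce3e369d9b685d85d5aa2efd3618e8698f6acaba6c74bd8d45e27f22e2d800000001

/-- generators of the sixteen subspaces -/
def gens10 : List (List ℕ) :=
  [[1, 2, 4, 8, 16],
   [33, 66, 132, 264, 528],
   [385, 34, 612, 872, 560],
   [705, 354, 772, 904, 272],
   [961, 450, 996, 104, 816],
   [225, 162, 804, 776, 464],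
   [673, 962, 228, 456, 432],
   [321, 194, 708, 40, 976],
   [97, 642, 964, 680, 848],
   [161, 994, 580, 520, 48],
   [289, 930, 196, 168, 912],
   [449, 226, 68, 712, 112],
   [577, 418, 868, 552, 656],
   [929, 130, 420, 1000, 784],
   [353, 770, 516, 424, 304],
   [32, 64, 128, 256, 512]]

theorem ps10 : psCheck 5 F10 gens10 = true := by decide +kernel

theorem compl10 : F10 ^^^ G10 = 2 ^ (2 ^ (2 * 5)) - 1 := by decide +kernel

theorem F10_0 : lev (fun p Z => srch 4 ([0, 1, 2, 3, 4, 5, 6, 7, 8, 9].erase p) Z) F10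
    [2, 1, 0] = true := by decide +kernel
theorem F10_3 : part F10 3 [2, 1, 0] (swp 3 F10) = true := by decide +kernel
theorem F10_40 : part F10 4 [2, 1, 0] (swp 4 F10) = true := by decide +kernel
theorem F10_41 : part F10 4 [2, 1, 0] (swp 3 (swp 4 F10)) = true := by decide +kernel
theorem F10_50 : part F10 5 [2, 1, 0] (swp 5 F10) = true := by decide +kernel
theorem F10_51 : part F10 5 [2, 1, 0] (swp 3 (swp 5 F10)) = true := by decide +kernel
theorem F10_52 : part F10 5 [2, 1, 0] (swp 4 (swp 5 F10)) = true := by decide +kernel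
theorem F10_53 : part F10 5 [2, 1, 0] (swp 3 (swp 4 (swp 5 F10))) = true := by decide +kernel

theorem F10_all : srch 5 (List.range 10) F10 = true :=
  srch_of_parts F10 F10_0 F10_3 F10_40 F10_41 F10_50 F10_51 F10_52 F10_53

theorem G10_0 : lev (fun p Z => srch 4 ([0, 1, 2, 3, 4, 5, 6, 7, 8, 9].erase p) Z) G10
    [2, 1, 0] = true := by decide +kernel
theorem G10_3 : part G10 3 [2, 1, 0] (swp 3 G10) = true := by decide +kernel
theorem G10_40 : part G10 4 [2, 1, 0] (swp 4 G10) = true := by decide +kernel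
theorem G10_41 : part G10 4 [2, 1, 0] (swp 3 (swp 4 G10)) = true := by decide +kernel
theorem G10_50 : part G10 5 [2, 1, 0] (swp 5 G10) = true := by decide +kernel
theorem G10_51 : part G10 5 [2, 1, 0] (swp 3 (swp 5 G10)) = true := by decide +kernel
theorem G10_52 : part G10 5 [2, 1, 0] (swp 4 (swp 5 G10)) = true := by decide +kernel
theorem G10_53 : part G10 5 [2, 1, 0] (swp 3 (swp 4 (swp 5 G10))) = true := by decide +kernel

theorem G10_all : srch 5 (List.range 10) G10 = true :=
  srch_of_parts G10 G10_0 G10_3 G10_40 G10_41 G10_50 G10_51 G10_52 G10_53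

end Pool.Agent.Helper56.PS
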