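import Mathlib
import Pool.Agent.Helper56.PS.Data12

set_option autoImplicit false

/-!
Splitting the first level of the search into parts.
-/

namespace Pool.Agent.Helper56.PT

open Pool.Agent.Helper56.PS

/-- remaining set after the first level -/
def fst (X r p : ℕ) : ℕ := Nat.land (Nat.land X (sh X r)) (mk p)

/-- remaining allowed set after the first level -/
def fsa (A r : ℕ) : ℕ := Nat.land A (sh A r)

/-- remaining positions after the first level -/
def pos (p : ℕ) : List ℕ := [0, 1, 2, 3, 4, 5, 6, 7, 8, 9, 10, 11, 12].erase p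

/-- continuation at the second level -/
def cont (B : ℕ) (e : List ℕ) (p v Z : ℕ) : Bool :=
  or (not (tb B v)) (lvl3 Z (Nat.land B (sh B v)) (e.erase p))

/-- first part -/
def part1 (X A r p : ℕ) (l : List ℕ) : Bool :=
  levV (fun q v Z => cont (fsa A r) (pos p) q v Z) (fst X r p) l

/-- second part -/
def part2 (X A r p b : ℕ) (l : List ℕ) : Bool :=
  enumV (fun v Y => cont (fsa A r) (pos p) b v (Nat.land (Nat.land (fst X r p) Y) (mk b))) l
    (pw b) (swp b (fst X r p))

/-- third part -/
def part3 (X A r p a b : ℕ) (l : List ℕ) : Bool :=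
  enumV (fun v Y => cont (fsa A r) (pos p) a v (Nat.land (Nat.land (fst X r p) Y) (mk a))) l
    (Nat.xor (pw a) (pw b)) (swp b (swp a (fst X r p)))

theorem lvl1_of_parts (X A r p a b : ℕ) (l : List ℕ)
    (he : ((pos p).take 8).reverse = a :: b :: l) (h1 : part1 X A r p l = true)
    (h2 : part2 X A r p b l = true) (h3 : part2 X A r p a l = true)
    (h4 : part3 X A r p a b l = true) : lvl1 X A r p = true := by
  change levV (fun q v Z => cont (fsa A r) (pos p) q v Z) (fst X r p)
    (((pos p).take 8).reverse) = true
  rw [he]
  change ((part1 X A r p l && part2 X A r p b l) && (part2 X A r p a l && part3 X A r p a b l)) =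
    true
  rw [h1, h2, h3, h4]
  rfl

end Pool.Agent.Helper56.PT
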