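import Mathlib
import Pool.Agent.Helper56.PS.Parts

set_option autoImplicit false

/-!
Kernel checks of the search for orbit number 3.
-/

namespace Pool.Agent.Helper56.PT

theorem o3_1 : part1 X12 A3 22 4 [6, 5, 3, 2, 1, 0] = true := by decide +kernel
theorem o3_2 : part2 X12 A3 22 4 7 [6, 5, 3, 2, 1, 0] = true := by decide +kernel
theorem o3_3 : part2 X12 A3 22 4 8 [6, 5, 3, 2, 1, 0] = true := by decide +kernel
theorem o3_4 : part3 X12 A3 22 4 8 7 [6, 5, 3, 2, 1, 0] = true := by decide +kernel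

theorem o3 : lvl1 X12 A3 22 4 = true :=
  lvl1_of_parts X12 A3 22 4 8 7 [6, 5, 3, 2, 1, 0] (by decide) o3_1 o3_2 o3_3 o3_4

end Pool.Agent.Helper56.PT
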