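import Mathlib
import Pool.Agent.Helper56.PS.Search

set_option autoImplicit false

/-!
Bit sets with `8192` positions: translations, the search for flats through translations by
allowed vectors, and through pairs of elements.
-/

namespace Pool.Agent.Helper56.PT

open Pool.Agent.Helper56.PS

/-- all positions below `8192` -/
def full : ℕ := Nat.sub (Nat.pow (nat_lit 2) (nat_lit 8192)) (nat_lit 1)

/-- the positions below `8192` whose bit `p` is zero -/
def mk (p : ℕ) : ℕ := Nat.div full (Nat.succ (pw (pw p)))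

/-- translation of a bit set by the vector `2 ^ p` -/
def swp (p X : ℕ) : ℕ :=
  Nat.lor (Nat.shiftLeft (Nat.land X (mk p)) (pw p))
    (Nat.land (Nat.shiftRight X (pw p)) (mk p))

/-- kernel check of the masks -/
def mkCheck (p : ℕ) : Bool :=
  allR (fun i => allR (fun j => Bool.xor (tb (mk p) (Nat.add (Nat.mul (nat_lit 128) i) j))
          (tb (Nat.add (Nat.mul (nat_lit 128) i) j) p)) (nat_lit 128)) (nat_lit 64)

theorem mk_all0 : mkCheck 0 = true := by decide +kernel
theorem mk_all1 : mkCheck 1 = true := by decide +kernel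
theorem mk_all2 : mkCheck 2 = true := by decide +kernel
theorem mk_all3 : mkCheck 3 = true := by decide +kernel
theorem mk_all4 : mkCheck 4 = true := by decide +kernel
theorem mk_all5 : mkCheck 5 = true := by decide +kernel
theorem mk_all6 : mkCheck 6 = true := by decide +kernel
theorem mk_all7 : mkCheck 7 = true := by decide +kernel
theorem mk_all8 : mkCheck 8 = true := by decide +kernel
theorem mk_all9 : mkCheck 9 = true := by decide +kernel
theorem mk_all10 : mkCheck 10 = true := by decide +kernel
theorem mk_all11 : mkCheck 11 = true := by decide +kernel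
theorem mk_all12 : mkCheck 12 = true := by decide +kernel

theorem mk_all (p : ℕ) (hp : p < 13) : mkCheck p = true := by
  interval_cases p
  · exact mk_all0
  · exact mk_all1
  · exact mk_all2
  · exact mk_all3
  · exact mk_all4
  · exact mk_all5
  · exact mk_all6
  · exact mk_all7
  · exact mk_all8
  · exact mk_all9
  · exact mk_all10
  · exact mk_all11
  · exact mk_all12

theorem mk_testBit (p x : ℕ) (hp : p < 13) (hx : x < 8192) :
    (mk p).testBit x = !(x.testBit p) := by
  have h := mk_all p hp
  unfold mkCheck at h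
  have h1 := allR_spec _ _ h (x / 128) (show x / 128 < 64 by omega)
  have h2 := allR_spec _ _ h1 (x % 128) (show x % 128 < 128 by omega)
  have h3 : Nat.add (Nat.mul 128 (x / 128)) (x % 128) = x := Nat.div_add_mod x 128
  rw [h3, tb_eq, tb_eq] at h2
  revert h2
  cases (mk p).testBit x <;> cases x.testBit p <;> simp

theorem xor_lt (x y : ℕ) (hx : x < 8192) (hy : y < 8192) : x ^^^ y < 8192 :=
  Nat.xor_lt_two_pow (n := 13) hx hy

theorem pow_lt_bound (p : ℕ) (hp : p < 13) : 2 ^ p < 8192 := by
  calc 2 ^ p < 2 ^ 13 := Nat.pow_lt_pow_right (by norm_num) hp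
    _ = 8192 := by norm_num

theorem swp_testBit (p X x : ℕ) (hp : p < 13) (hx : x < 8192) :
    (swp p X).testBit x = X.testBit (x ^^^ 2 ^ p) := by
  have h0 : swp p X = ((X &&& mk p) <<< (2 ^ p)) ||| ((X >>> (2 ^ p)) &&& mk p) := rfl
  have hpl : 2 ^ p < 8192 := pow_lt_bound p hp
  rw [h0, Nat.testBit_or, Nat.testBit_and, Nat.testBit_shiftLeft, Nat.testBit_shiftRight,
    Nat.testBit_and, mk_testBit p x hp hx]
  cases hb : x.testBit p with
  | false =>
    rw [add_two_pow p x hb]
    by_cases hx2 : x ≥ 2 ^ p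
    · have h3 : (x - 2 ^ p).testBit p = true := by
        by_contra h4
        have h4' : (x - 2 ^ p).testBit p = false := by simpa using h4
        have h5 := add_two_pow p (x - 2 ^ p) h4'
        have h6 := testBit_xor_self p (x - 2 ^ p)
        rw [h5, h4', Nat.sub_add_cancel hx2, hb] at h6
        simp at h6
      rw [mk_testBit p _ hp (Nat.lt_of_le_of_lt (Nat.sub_le _ _) hx), h3]
      simp [Nat.add_comm]
    · simp [hx2, Nat.add_comm]
  | true =>
    have h7 : (x ^^^ 2 ^ p).testBit p = false := by rw [testBit_xor_self, hb]; rfl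
    have h8 := add_two_pow p _ h7
    rw [Nat.xor_assoc, Nat.xor_self, Nat.xor_zero] at h8
    have h9 : x ≥ 2 ^ p := by omega
    have h10 : x - 2 ^ p = x ^^^ 2 ^ p := by omega
    rw [h10, mk_testBit p _ hp (xor_lt _ _ hx hpl), h7]
    simp [h9]

theorem supp_lt (l : List ℕ) (hl : ∀ p ∈ l, p < 13) (v : ℕ) (hv : Supp l v) : v < 8192 := by
  apply Nat.lt_pow_two_of_testBit (n := 13)
  intro i hi
  by_contra hc
  have := hl i (hv i (by simpa using hc))
  omega

/-- run `k` on all translates of `Y` by vectors `w` supported on `l`; the first argument of `k`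
is `v + w` -/
def enumV (k : ℕ → ℕ → Bool) (l : List ℕ) : ℕ → ℕ → Bool :=
  List.rec (motive := fun _ => ℕ → ℕ → Bool) k
    (fun p _ ih v Y => and (ih v Y) (ih (Nat.xor v (pw p)) (swp p Y))) l

theorem supp_cons_xor (p : ℕ) (l : List ℕ) (w : ℕ) (hw : Supp (p :: l) w)
    (hb : w.testBit p = true) : Supp l (w ^^^ 2 ^ p) := by
  intro i hi
  by_cases hip : p = i
  · subst hip
    rw [testBit_xor_self, hb] at hi
    simp at hi
  · rw [Nat.testBit_xor, Nat.testBit_two_pow] at hi
    simp only [hip, decide_false, Bool.xor_false] at hi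
    rcases List.mem_cons.mp (hw i hi) with h1 | h1
    · exact absurd h1.symm hip
    · exact h1

theorem supp_cons_of (p : ℕ) (l : List ℕ) (w : ℕ) (hw : Supp (p :: l) w)
    (hb : w.testBit p = false) : Supp l w := by
  intro i hi
  rcases List.mem_cons.mp (hw i hi) with h1 | h1
  · rw [h1, hb] at hi; exact absurd hi (by simp)
  · exact h1

theorem supp_nil (w : ℕ) (hw : Supp [] w) : w = 0 := by
  apply Nat.eq_of_testBit_eq
  intro i
  rw [Nat.zero_testBit]
  by_contra hc
  have := hw i (by simpa using hc)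
  simp at this

theorem enumV_spec (k : ℕ → ℕ → Bool) (l : List ℕ) (hl : ∀ p ∈ l, p < 13) (v Y : ℕ)
    (h : enumV k l v Y = true) (w : ℕ) (hw : Supp l w) :
    ∃ Z, (∀ x < 8192, Z.testBit x = Y.testBit (x ^^^ w)) ∧ k (v ^^^ w) Z = true := by
  induction l generalizing Y v w with
  | nil =>
    have hw0 := supp_nil w hw
    refine ⟨Y, ?_, ?_⟩
    · intro x _
      rw [hw0, Nat.xor_zero]
    · rw [hw0, Nat.xor_zero]; exact h
  | cons p l ih =>
    have h' : (enumV k l v Y && enumV k l (v ^^^ 2 ^ p) (swp p Y)) = true := h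
    simp only [Bool.and_eq_true] at h'
    have hl' : ∀ q ∈ l, q < 13 := fun q hq => hl q (List.mem_cons_of_mem _ hq)
    have hp : p < 13 := hl p List.mem_cons_self
    cases hb : w.testBit p with
    | true =>
      obtain ⟨Z, hZ, hk⟩ := ih hl' (v ^^^ 2 ^ p) (swp p Y) h'.2 _ (supp_cons_xor p l w hw hb)
      refine ⟨Z, ?_, ?_⟩
      · intro x hx
        have hwl : w < 8192 := supp_lt _ hl w hw
        rw [hZ x hx, swp_testBit p Y _ hp (xor_lt _ _ hx (xor_lt _ _ hwl (pow_lt_bound p hp)))]
        congr 1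
        rw [Nat.xor_assoc, Nat.xor_assoc, Nat.xor_self, Nat.xor_zero]
      · have e : v ^^^ 2 ^ p ^^^ (w ^^^ 2 ^ p) = v ^^^ w := by
          rw [Nat.xor_comm w, Nat.xor_assoc, ← Nat.xor_assoc (2 ^ p) (2 ^ p), Nat.xor_self,
            Nat.zero_xor]
        rw [e] at hk
        exact hk
    | false => exact ih hl' v Y h'.1 w (supp_cons_of p l w hw hb)

/-- run `k` on all sets of representatives of `X` meeting its translate by `v`, where `v` is
supported on `l`; the first arguments of `k` are the pivot of `v` and `v` -/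
def levV (k : ℕ → ℕ → ℕ → Bool) (X : ℕ) (l : List ℕ) : Bool :=
  List.rec (motive := fun _ => Bool) true
    (fun p pre ih => and ih
      (enumV (fun v Y => k p v (Nat.land (Nat.land X Y) (mk p))) pre (pw p) (swp p X))) l

theorem levV_spec (k : ℕ → ℕ → ℕ → Bool) (X : ℕ) (l : List ℕ) (hl : ∀ p ∈ l, p < 13)
    (h : levV k X l = true) (v : ℕ) (hv : Supp l v) (hv0 : v ≠ 0) :
    ∃ p ∈ l, v.testBit p = true ∧ ∃ Z, (∀ x < 8192, Z.testBit x =
      ((X.testBit x && X.testBit (x ^^^ v)) && !(x.testBit p))) ∧ k p v Z = true := by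
  induction l with
  | nil => exact absurd (supp_nil v hv) hv0
  | cons p l ih =>
    have h' : (levV k X l &&
      enumV (fun v Y => k p v (Nat.land (Nat.land X Y) (mk p))) l (2 ^ p) (swp p X)) = true := h
    simp only [Bool.and_eq_true] at h'
    have hl' : ∀ q ∈ l, q < 13 := fun q hq => hl q (List.mem_cons_of_mem _ hq)
    have hp : p < 13 := hl p List.mem_cons_self
    cases hb : v.testBit p with
    | true =>
      refine ⟨p, List.mem_cons_self, hb, ?_⟩
      obtain ⟨Z, hZ, hk⟩ := enumV_spec _ l hl' _ _ h'.2 _ (supp_cons_xor p l v hv hb)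
      have e1 : 2 ^ p ^^^ (v ^^^ 2 ^ p) = v := by
        rw [Nat.xor_comm v, ← Nat.xor_assoc, Nat.xor_self, Nat.zero_xor]
      rw [e1] at hk
      refine ⟨_, ?_, hk⟩
      intro x hx
      have hvl : v < 8192 := supp_lt _ hl v hv
      have e : Nat.land (Nat.land X Z) (mk p) = (X &&& Z) &&& mk p := rfl
      rw [e, Nat.testBit_and, Nat.testBit_and, mk_testBit p x hp hx, hZ x hx,
        swp_testBit p X _ hp (xor_lt _ _ hx (xor_lt _ _ hvl (pow_lt_bound p hp)))]
      congr 3
      rw [Nat.xor_assoc, Nat.xor_assoc, Nat.xor_self, Nat.xor_zero]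
    | false =>
      obtain ⟨q, hq, h2⟩ := ih hl' h'.1 (supp_cons_of p l v hv hb)
      exact ⟨q, List.mem_cons_of_mem _ hq, h2⟩

/-- translation by the part of `v` supported on `l` -/
def shl (v : ℕ) (l : List ℕ) : ℕ → ℕ :=
  List.rec (motive := fun _ => ℕ → ℕ) (fun X => X)
    (fun p _ ih X => ih (cond (tb v p) (swp p X) X)) l

/-- translation of a bit set by `v` -/
def sh (X v : ℕ) : ℕ := shl v [0, 1, 2, 3, 4, 5, 6, 7, 8, 9, 10, 11, 12] X

theorem shl_testBit (v : ℕ) (l : List ℕ) (hl : ∀ p ∈ l, p < 13) (hn : l.Nodup) (X x : ℕ)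
    (hx : x < 8192) :
    ∃ w < 8192, (∀ i, w.testBit i = (v.testBit i && decide (i ∈ l))) ∧
      (shl v l X).testBit x = X.testBit (x ^^^ w) := by
  induction l generalizing X with
  | nil =>
    refine ⟨0, by norm_num, ?_, ?_⟩
    · intro i; simp
    · rw [Nat.xor_zero]; rfl
  | cons p l ih =>
    have hl' : ∀ q ∈ l, q < 13 := fun q hq => hl q (List.mem_cons_of_mem _ hq)
    have hp : p < 13 := hl p List.mem_cons_self
    have hn' := List.nodup_cons.mp hn
    have e : shl v (p :: l) X = shl v l (cond (tb v p) (swp p X) X) := rfl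
    obtain ⟨w, hw, hwi, hwx⟩ := ih hl' hn'.2 (cond (tb v p) (swp p X) X)
    rw [e, hwx, tb_eq]
    cases hb : v.testBit p with
    | true =>
      refine ⟨w ^^^ 2 ^ p, xor_lt _ _ hw (pow_lt_bound p hp), ?_, ?_⟩
      · intro i
        rw [Nat.testBit_xor, hwi, Nat.testBit_two_pow]
        by_cases hi : p = i
        · subst hi
          simp [hb, hn'.1]
        · have hi' : ¬ i = p := fun h => hi h.symm
          simp [hi, hi']
      · rw [cond_true, swp_testBit p X _ hp (xor_lt _ _ hx hw), Nat.xor_assoc]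
    | false =>
      refine ⟨w, hw, ?_, ?_⟩
      · intro i
        rw [hwi]
        by_cases hi : i = p
        · subst hi; simp [hb]
        · simp [hi]
      · rw [cond_false]

theorem sh_testBit (X v x : ℕ) (hv : v < 8192) (hx : x < 8192) :
    (sh X v).testBit x = X.testBit (x ^^^ v) := by
  obtain ⟨w, _, hwi, hwx⟩ := shl_testBit v [0, 1, 2, 3, 4, 5, 6, 7, 8, 9, 10, 11, 12]
    (by decide) (by decide) X x hx
  have : w = v := by
    apply Nat.eq_of_testBit_eq
    intro i
    rw [hwi]
    cases hb : v.testBit i with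
    | false => rfl
    | true =>
      have hi : i < 13 := by
        by_contra hc
        have h1 : v < 2 ^ i := lt_of_lt_of_le hv
          (show 2 ^ 13 ≤ 2 ^ i from Nat.pow_le_pow_right (by norm_num) (by omega))
        rw [Nat.testBit_lt_two_pow h1] at hb
        exact absurd hb (by simp)
      rw [Bool.true_and, decide_eq_true_eq]
      interval_cases i <;> decide
  rw [this] at hwx
  exact hwx

/-- binary search for the position of the greatest element -/
def lgl (l : List ℕ) : ℕ → ℕ → ℕ :=
  List.rec (motive := fun _ => ℕ → ℕ → ℕ) (fun _ a => a)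
    (fun j _ ih X a => cond (Nat.beq (Nat.shiftRight X (pw j)) (nat_lit 0)) (ih X a)
      (ih (Nat.shiftRight X (pw j)) (Nat.add a (pw j)))) l

/-- position of the greatest element of a set -/
def lg (X : ℕ) : ℕ := lgl [12, 11, 10, 9, 8, 7, 6, 5, 4, 3, 2, 1, 0] X (nat_lit 0)

/-- position of the top bit of a vector -/
def lv (v : ℕ) : ℕ := lgl [3, 2, 1, 0] v (nat_lit 0)

/-- test all `a + b` for `b` in the set, until at most `m` elements are left -/
def inner (T : ℕ → Bool) (m a : ℕ) (fuel : ℕ) : ℕ → Bool :=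
  Nat.rec (motive := fun _ => ℕ → Bool) (fun _ => false)
    (fun _ ih Y => or (few m Y) (and (T (Nat.xor a (lg Y)))
      (ih (Nat.xor Y (pw (lg Y)))))) fuel

theorem xor_two_pow_testBit (Y b x : ℕ) (h : x ≠ b) : (Y ^^^ 2 ^ b).testBit x = Y.testBit x := by
  rw [Nat.testBit_xor, Nat.testBit_two_pow]
  have : ¬ b = x := fun h' => h h'.symm
  simp [this]

theorem inner_spec (T : ℕ → Bool) (m a fuel : ℕ) (Y : ℕ) (h : inner T m a fuel Y = true)
    (E : Finset ℕ) (hE : m < E.card) (hY : ∀ x ∈ E, Y.testBit x = true)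
    (hT : ∀ b ∈ E, T (a ^^^ b) = true → False) : False := by
  induction fuel generalizing Y with
  | zero => exact absurd h (by simp [inner])
  | succ n ih =>
    have h' : (few m Y || (T (a ^^^ lg Y) && inner T m a n (Y ^^^ 2 ^ lg Y))) = true := h
    rw [Bool.or_eq_true, Bool.and_eq_true] at h'
    rcases h' with h' | ⟨h1, h2⟩
    · have := few_spec _ _ h' E hY
      omega
    · refine ih _ h2 ?_
      intro x hx
      have hne : x ≠ lg Y := by
        intro he
        exact hT x hx (by rw [he]; exact h1)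
      rw [xor_two_pow_testBit _ _ _ hne]
      exact hY x hx

/-- for the greatest element, test its sums with others; then remove it -/
def outer (T : ℕ → ℕ → Bool) (m : ℕ) (fuel : ℕ) : ℕ → Bool :=
  Nat.rec (motive := fun _ => ℕ → Bool) (fun _ => false)
    (fun _ ih X => or (few (Nat.succ m) X)
      (and (inner (T X) m (lg X) (nat_lit 64) (Nat.xor X (pw (lg X))))
        (ih (Nat.xor X (pw (lg X)))))) fuel

theorem outer_spec (T : ℕ → ℕ → Bool) (m fuel : ℕ) (X : ℕ) (h : outer T m fuel X = true)
    (D : Finset ℕ) (hD : D.card = m + 2) (hX : ∀ x ∈ D, X.testBit x = true)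
    (hT : ∀ X, (∀ x ∈ D, X.testBit x = true) → ∀ a ∈ D, ∀ b ∈ D, a ≠ b →
      T X (a ^^^ b) = true → False) : False := by
  induction fuel generalizing X with
  | zero => exact absurd h (by simp [outer])
  | succ n ih =>
    have h' : (few (m + 1) X || (inner (T X) m (lg X) 64 (X ^^^ 2 ^ lg X) &&
      outer T m n (X ^^^ 2 ^ lg X))) = true := h
    rw [Bool.or_eq_true, Bool.and_eq_true] at h'
    rcases h' with h' | ⟨h1, h2⟩
    · have := few_spec _ _ h' D hX
      omega
    · by_cases ha : lg X ∈ D
      · refine inner_spec _ _ _ _ _ h1 (D.erase (lg X)) ?_ ?_ ?_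
        · rw [Finset.card_erase_of_mem ha, hD]; omega
        · intro x hx
          rw [Finset.mem_erase] at hx
          rw [xor_two_pow_testBit _ _ _ hx.1]
          exact hX x hx.2
        · intro b hb
          rw [Finset.mem_erase] at hb
          exact hT X hX _ ha b hb.2 (fun h => hb.1 h.symm)
      · refine ih _ h2 ?_
        intro x hx
        have hne : x ≠ lg X := by
          intro he; rw [he] at hx; exact ha hx
        rw [xor_two_pow_testBit _ _ _ hne]
        exact hX x hx

/-- the set contains no flat of dimension `d` -/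
def nf (d : ℕ) : ℕ → Bool :=
  Nat.rec (motive := fun _ => ℕ → Bool) (fun X => Nat.beq X (nat_lit 0))
    (fun d ih X => outer
      (fun X v => and (tb v (lv v)) (and (Nat.blt (lv v) (nat_lit 13))
        (ih (Nat.land (Nat.land X (sh X v)) (mk (lv v))))))
      (Nat.sub (pw (Nat.succ d)) (nat_lit 2)) (nat_lit 64) X) d

theorem nf_spec (d : ℕ) (X : ℕ) (h : nf d X = true) (U D : Finset ℕ) (hP : Pr d U D)
    (hD : ∀ x ∈ D, x < 8192 ∧ X.testBit x = true) : False := by
  induction d generalizing X U D with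
  | zero =>
    have h' : X = 0 := Nat.eq_of_beq_eq_true h
    obtain ⟨x, hx⟩ := hP.ne
    have := (hD x hx).2
    rw [h'] at this
    simp at this
  | succ d ih =>
    have h' : outer (fun X v => and (tb v (lv v)) (and (Nat.blt (lv v) 13)
      (nf d ((X &&& sh X v) &&& mk (lv v))))) (2 ^ (d + 1) - 2) 64 X = true := h
    refine outer_spec _ _ _ _ h' D ?_ (fun x hx => (hD x hx).2) ?_
    · rw [hP.cardD]
      have : 2 ≤ 2 ^ (d + 1) := by
        rw [pow_succ]
        have : 0 < 2 ^ d := by positivity
        omega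
      omega
    · intro Y hY a ha b hb hab hT
      have hv : a ^^^ b ∈ U := hP.df a ha b hb
      have hv0 : a ^^^ b ≠ 0 := fun h0 => hab (Nat.xor_eq_zero_iff.mp h0)
      have hvl : a ^^^ b < 8192 := xor_lt _ _ (hD a ha).1 (hD b hb).1
      generalize a ^^^ b = v at hv hv0 hvl hT
      rw [Bool.and_eq_true, Bool.and_eq_true, tb_eq] at hT
      obtain ⟨hb, hp0, hT⟩ := hT
      have hp : lv v < 13 := Nat.le_of_ble_eq_true hp0
      refine ih _ hT (cut (lv v) U) (cut (lv v) D) (hP.step v _ hv hb) ?_
      intro x hx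
      rw [mem_cut] at hx
      have hxl := (hD x hx.1).1
      refine ⟨hxl, ?_⟩
      rw [Nat.testBit_and, Nat.testBit_and, sh_testBit _ _ _ hvl hxl, mk_testBit _ _ hp hxl,
        hY x hx.1, hY _ (hP.tr x hx.1 v hv), hx.2]
      rfl

end Pool.Agent.Helper56.PT
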