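import Mathlib
import Pool.Agent.Helper56.PS.Wide
import Pool.Agent.Helper56.PS.Normal

set_option autoImplicit false

/-!
The search for six-dimensional flats inside the graph of a Boolean function in twelve
variables, up to symmetries, and its connection with weak normality.
-/

namespace Pool.Agent.Helper56.PT

open Pool.Agent.Helper56.PS

/-- third level of the search -/
def lvl3 (X B : ℕ) (e : List ℕ) : Bool :=
  levV (fun _ v Z => or (not (tb B v)) (nf (nat_lit 3) Z)) X ((e.take (nat_lit 8)).reverse)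

/-- second level of the search, restricted to a list of positions -/
def lvl2 (X B : ℕ) (e : List ℕ) : Bool :=
  levV (fun p v Z => or (not (tb B v)) (lvl3 Z (Nat.land B (sh B v)) (e.erase p))) X
    ((e.take (nat_lit 8)).reverse)

/-- first level: the direction `r` with top bit `p`, and the allowed set `A` -/
def lvl1 (X A r p : ℕ) : Bool :=
  lvl2 (Nat.land (Nat.land X (sh X r)) (mk p)) (Nat.land A (sh A r))
    ([0, 1, 2, 3, 4, 5, 6, 7, 8, 9, 10, 11, 12].erase p)

/-- the nonzero elements of `U` are allowed -/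
def All (A : ℕ) (U : Finset ℕ) : Prop := ∀ u ∈ U, u ≠ 0 → A.testBit u = true

theorem all_cut (A v p : ℕ) (U : Finset ℕ) (hU : ∀ u ∈ U, u < 8192) (h : All A U)
    (hadd : ∀ x ∈ U, ∀ y ∈ U, x ^^^ y ∈ U) (hv : v ∈ U) (hp : v.testBit p = true) :
    All (Nat.land A (sh A v)) (cut p U) := by
  intro u hu hu0
  rw [mem_cut] at hu
  have e : Nat.land A (sh A v) = A &&& sh A v := rfl
  rw [e, Nat.testBit_and, sh_testBit _ _ _ (hU v hv) (hU u hu.1), h u hu.1 hu0,
    h _ (hadd u hu.1 v hv) ?_]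
  · rfl
  · intro h0
    have h1 : (u ^^^ v).testBit p = true := by
      rw [Nat.testBit_xor, hu.2, hp]; rfl
    rw [h0] at h1
    simp at h1

theorem supp_cut (e : List ℕ) (p : ℕ) (U : Finset ℕ) (h : ∀ u ∈ U, Supp e u) :
    ∀ u ∈ cut p U, Supp (e.erase p) u := by
  intro u hu i hi
  rw [mem_cut] at hu
  have h1 := h u hu.1 i hi
  have h2 : i ≠ p := by
    intro h3; rw [h3, hu.2] at hi; simp at hi
  exact (List.mem_erase_of_ne h2).mpr h1

theorem cand (d k : ℕ) (e : List ℕ) (U D : Finset ℕ) (hP : Pr (d + 1) U D)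
    (hs : ∀ u ∈ U, Supp e u) (hl : e.length ≤ k + d) :
    ∃ v ∈ U, v ≠ 0 ∧ Supp ((e.take k).reverse) v := by
  obtain ⟨v, hv, hv0, hvS⟩ := hP.exists_cand (e.drop k) (by rw [List.length_drop]; omega)
  refine ⟨v, hv, hv0, ?_⟩
  intro i hi
  rw [List.mem_reverse]
  have h1 := hs v hv i hi
  rw [← List.take_append_drop k e, List.mem_append] at h1
  rcases h1 with h1 | h1
  · exact h1
  · rw [hvS i h1] at hi; simp at hi

theorem lvl3_spec (X B : ℕ) (e : List ℕ) (he : ∀ p ∈ e, p < 13) (hl : e.length ≤ 11)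
    (h : lvl3 X B e = true) (U D : Finset ℕ) (hP : Pr 4 U D) (hs : ∀ u ∈ U, Supp e u)
    (hB : All B U) (hD : ∀ x ∈ D, x < 8192 ∧ X.testBit x = true) : False := by
  obtain ⟨v, hv, hv0, hvs⟩ := cand 3 8 e U D hP hs hl
  obtain ⟨p, hp, hvp, Z, hZ, hk⟩ := levV_spec _ X _ (by
    intro q hq
    rw [List.mem_reverse] at hq
    exact he q (List.mem_of_mem_take hq)) h v hvs hv0
  rw [tb_eq, hB v hv hv0] at hk
  have hk' : nf 3 Z = true := hk
  refine nf_spec 3 Z hk' (cut p U) (cut p D) (hP.step v p hv hvp) ?_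
  intro x hx
  rw [mem_cut] at hx
  refine ⟨(hD x hx.1).1, ?_⟩
  rw [hZ x (hD x hx.1).1, (hD x hx.1).2, (hD _ (hP.tr x hx.1 v hv)).2, hx.2]
  rfl

theorem lvl2_spec (X B : ℕ) (e : List ℕ) (he : ∀ p ∈ e, p < 13) (hl : e.length ≤ 12)
    (h : lvl2 X B e = true) (U D : Finset ℕ) (hP : Pr 5 U D) (hs : ∀ u ∈ U, Supp e u)
    (hU : ∀ u ∈ U, u < 8192)
    (hB : All B U) (hD : ∀ x ∈ D, x < 8192 ∧ X.testBit x = true) : False := by
  obtain ⟨v, hv, hv0, hvs⟩ := cand 4 8 e U D hP hs hl
  obtain ⟨p, hp, hvp, Z, hZ, hk⟩ := levV_spec _ X _ (by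
    intro q hq
    rw [List.mem_reverse] at hq
    exact he q (List.mem_of_mem_take hq)) h v hvs hv0
  rw [tb_eq, hB v hv hv0] at hk
  have hk' : lvl3 Z (Nat.land B (sh B v)) (e.erase p) = true := hk
  have hpe : p ∈ e := by
    rw [List.mem_reverse] at hp
    exact List.mem_of_mem_take hp
  refine lvl3_spec Z _ _ (fun q hq => he q (List.mem_of_mem_erase hq)) ?_ hk'
    (cut p U) (cut p D) (hP.step v p hv hvp) (supp_cut e p U hs)
    (all_cut B v p U hU hB hP.add hv hvp) ?_
  · rw [List.length_erase_of_mem hpe]; omega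
  · intro x hx
    rw [mem_cut] at hx
    refine ⟨(hD x hx.1).1, ?_⟩
    rw [hZ x (hD x hx.1).1, (hD x hx.1).2, (hD _ (hP.tr x hx.1 v hv)).2, hx.2]
    rfl

/-- a flat of dimension six inside `X` -/
structure Vd (X : ℕ) (U D : Finset ℕ) : Prop where
  pr : Pr 6 U D
  lt : ∀ u ∈ U, u < 8192
  mem : ∀ x ∈ D, x < 8192 ∧ X.testBit x = true

theorem lvl1_spec (X A r p : ℕ) (h : lvl1 X A r p = true) (hp : p < 13)
    (hr : r.testBit p = true) (U D : Finset ℕ) (hV : Vd X U D) (hA : All A U) (hrU : r ∈ U) :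
    False := by
  have hrl := hV.lt r hrU
  have hs : ∀ u ∈ U, Supp [0, 1, 2, 3, 4, 5, 6, 7, 8, 9, 10, 11, 12] u := by
    intro u hu
    exact supp_range 13 u (hV.lt u hu)
  have hpe : p ∈ [0, 1, 2, 3, 4, 5, 6, 7, 8, 9, 10, 11, 12] := by
    interval_cases p <;> decide
  refine lvl2_spec _ _ _ ?_ ?_ h (cut p U) (cut p D) (hV.pr.step r p hrU hr)
    (supp_cut _ p U hs) ?_ (all_cut A r p U hV.lt hA hV.pr.add hrU hr) ?_
  · intro q hq
    have h1 := List.mem_of_mem_erase hq
    revert h1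
    revert q
    intro q _ h1
    simp only [List.mem_cons, List.not_mem_nil, or_false] at h1
    omega
  · rw [List.length_erase_of_mem hpe]; decide
  · intro u hu
    rw [mem_cut] at hu
    exact hV.lt u hu.1
  · intro x hx
    rw [mem_cut] at hx
    have hxl := (hV.mem x hx.1).1
    refine ⟨hxl, ?_⟩
    have e : Nat.land (Nat.land X (sh X r)) (mk p) = (X &&& sh X r) &&& mk p := rfl
    rw [e, Nat.testBit_and, Nat.testBit_and, sh_testBit _ _ _ hrl hxl, mk_testBit _ _ hp hxl,
      (hV.mem x hx.1).2, (hV.mem _ (hV.pr.tr x hx.1 r hrU)).2, hx.2]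
    rfl

/-- images of flats under additive maps -/
theorem pr_map {d : ℕ} {U D : Finset ℕ} (h : Pr d U D) (φ : ℕ → ℕ) (t N : ℕ)
    (hU : ∀ u ∈ U, u < N) (hD : ∀ x ∈ D, x < N)
    (hadd : ∀ x < N, ∀ y < N, φ (x ^^^ y) = φ x ^^^ φ y)
    (hinj : ∀ x < N, φ x = 0 → x = 0) (hN : ∀ x < N, ∀ y < N, x ^^^ y < N) :
    Pr d (U.image φ) (D.image (fun x => φ x ^^^ t)) := by
  refine ⟨?_, ?_, ?_, ?_, ?_⟩
  · intro x hx y hy
    rw [Finset.mem_image] at hx hy ⊢
    obtain ⟨a, ha, rfl⟩ := hx
    obtain ⟨b, hb, rfl⟩ := hy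
    exact ⟨a ^^^ b, h.add a ha b hb, hadd a (hU a ha) b (hU b hb)⟩
  · rw [Finset.card_image_of_injOn, h.card]
    intro a ha b hb hab
    have h1 : φ (a ^^^ b) = 0 := by
      have hab' : φ a = φ b := hab
      rw [hadd a (hU a ha) b (hU b hb), hab', Nat.xor_self]
    exact Nat.xor_eq_zero_iff.mp (hinj _ (hN _ (hU a ha) _ (hU b hb)) h1)
  · exact h.ne.image _
  · intro x hx u hu
    rw [Finset.mem_image] at hx hu ⊢
    obtain ⟨a, ha, rfl⟩ := hx
    obtain ⟨b, hb, rfl⟩ := hu
    refine ⟨a ^^^ b, h.tr a ha b hb, ?_⟩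
    rw [hadd a (hD a ha) b (hU b hb), Nat.xor_assoc, Nat.xor_assoc, Nat.xor_comm t]
  · intro x hx y hy
    rw [Finset.mem_image] at hx hy ⊢
    obtain ⟨a, ha, rfl⟩ := hx
    obtain ⟨b, hb, rfl⟩ := hy
    refine ⟨a ^^^ b, h.df a ha b hb, ?_⟩
    rw [hadd a (hD a ha) b (hD b hb), Nat.xor_assoc, Nat.xor_comm (φ b) t,
      ← Nat.xor_assoc t t, Nat.xor_self, Nat.zero_xor]

/-- the linear map with given columns -/
def lin (cs : List ℕ) : ℕ → ℕ :=
  List.rec (motive := fun _ => ℕ → ℕ) (fun _ => nat_lit 0)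
    (fun c _ ih x => Nat.xor (cond (tb x (nat_lit 0)) c (nat_lit 0))
      (ih (Nat.div x (nat_lit 2)))) cs

theorem lin_nil (x : ℕ) : lin [] x = 0 := rfl

theorem lin_cons (c : ℕ) (cs : List ℕ) (x : ℕ) :
    lin (c :: cs) x = (cond (x.testBit 0) c 0) ^^^ lin cs (x / 2) := by
  have : lin (c :: cs) x = (cond (tb x 0) c 0) ^^^ lin cs (x / 2) := rfl
  rw [this, tb_eq]

theorem xor_div_two' (x y : ℕ) : (x ^^^ y) / 2 = x / 2 ^^^ y / 2 := by
  apply Nat.eq_of_testBit_eq
  intro i
  rw [Nat.testBit_xor, ← Nat.testBit_succ, ← Nat.testBit_succ, ← Nat.testBit_succ,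
    Nat.testBit_xor]

theorem lin_add (cs : List ℕ) (x y : ℕ) : lin cs (x ^^^ y) = lin cs x ^^^ lin cs y := by
  induction cs generalizing x y with
  | nil => simp [lin_nil]
  | cons c cs ih =>
    rw [lin_cons, lin_cons, lin_cons, xor_div_two', ih, Nat.testBit_xor]
    have e : (cond (x.testBit 0 ^^ y.testBit 0) c 0) =
        (cond (x.testBit 0) c 0) ^^^ (cond (y.testBit 0) c 0) := by
      cases x.testBit 0 <;> cases y.testBit 0 <;> simp
    rw [e]
    generalize cond (x.testBit 0) c 0 = a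
    generalize cond (y.testBit 0) c 0 = b
    generalize lin cs (x / 2) = u
    generalize lin cs (y / 2) = v
    rw [Nat.xor_assoc, Nat.xor_assoc, ← Nat.xor_assoc b u v, Nat.xor_comm b u, Nat.xor_assoc u b v]

/-- kernel check for one symmetry: it is injective, preserves `X` and all allowed sets -/
def symCheck (cs : List ℕ) (X : ℕ) (As : List ℕ) : Bool :=
  allR (fun i => allR (fun j =>
    (fun x => (fun y => or (Nat.beq x (nat_lit 0)) (and (and (Nat.blt (nat_lit 0) y)
      (Nat.blt y (nat_lit 8192)))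
      (and (or (not (tb X x)) (tb X y)) (As.all (fun A => or (not (tb A x)) (tb A y))))))
      (lin cs x)) (Nat.add (Nat.mul (nat_lit 128) i) j)) (nat_lit 128)) (nat_lit 64)

theorem symCheck_spec (cs : List ℕ) (X : ℕ) (As : List ℕ) (h : symCheck cs X As = true)
    (x : ℕ) (hx : x < 8192) :
    (lin cs x = 0 → x = 0) ∧ lin cs x < 8192 ∧ (X.testBit x = true → X.testBit (lin cs x) = true) ∧
    ∀ A ∈ As, x ≠ 0 → A.testBit x = true → A.testBit (lin cs x) = true := by
  have hz : lin cs 0 = 0 := by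
    have := lin_add cs 0 0
    rw [Nat.xor_self, Nat.xor_self] at this
    exact this
  by_cases hx0 : x = 0
  · subst hx0
    rw [hz]
    refine ⟨fun _ => rfl, by norm_num, fun h => h, fun A _ h => absurd rfl h⟩
  unfold symCheck at h
  have h1 := allR_spec _ _ h (x / 128) (show x / 128 < 64 by omega)
  have h2 := allR_spec _ _ h1 (x % 128) (show x % 128 < 128 by omega)
  have h3 : Nat.add (Nat.mul 128 (x / 128)) (x % 128) = x := Nat.div_add_mod x 128
  rw [h3] at h2
  simp only [tb_eq, Bool.or_eq_true, Bool.and_eq_true, List.all_eq_true,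
    Bool.not_eq_true'] at h2
  rcases h2 with h2 | ⟨⟨ha, hb⟩, hc, hd⟩
  · exact absurd (Nat.eq_of_beq_eq_true h2) hx0
  · have ha' : 0 < lin cs x := Nat.le_of_ble_eq_true ha
    have hb' : lin cs x < 8192 := Nat.le_of_ble_eq_true hb
    refine ⟨fun h => by omega, hb', ?_, ?_⟩
    · intro hX
      rcases hc with hc | hc
      · rw [hX] at hc; exact absurd hc (by simp)
      · exact hc
    · intro A hA _ hAx
      rcases hd A hA with hd | hd
      · rw [hAx] at hd; exact absurd hd (by simp)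
      · exact hd

theorem move (cs : List ℕ) (X : ℕ) (As : List ℕ) (h : symCheck cs X As = true)
    (U D : Finset ℕ) (hV : Vd X U D) :
    Vd X (U.image (lin cs)) (D.image (fun x => lin cs x ^^^ 0)) := by
  have hs := symCheck_spec cs X As h
  refine ⟨?_, ?_, ?_⟩
  · refine pr_map hV.pr (lin cs) 0 8192 hV.lt (fun x hx => (hV.mem x hx).1)
      (fun x _ y _ => lin_add cs x y) (fun x hx => (hs x hx).1) xor_lt'
  · intro u hu
    rw [Finset.mem_image] at hu
    obtain ⟨a, ha, rfl⟩ := hu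
    exact (hs a (hV.lt a ha)).2.1
  · intro x hx
    rw [Finset.mem_image] at hx
    obtain ⟨a, ha, rfl⟩ := hx
    rw [Nat.xor_zero]
    exact ⟨(hs a (hV.mem a ha).1).2.1, (hs a (hV.mem a ha).1).2.2.1 (hV.mem a ha).2⟩
where
  xor_lt' : ∀ x < 8192, ∀ y < 8192, x ^^^ y < 8192 := fun x hx y hy => xor_lt x y hx hy

/-- lookup in a table of bytes -/
def tabl (t x : ℕ) : ℕ :=
  Nat.land (Nat.shiftRight t (Nat.mul (nat_lit 8) x)) (nat_lit 255)

/-- kernel check for one orbit: every element which is in `A` but not in `A'` is the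
representative `r` or is moved closer to it by one of the two symmetries -/
def orbCheck (cs ds : List ℕ) (t A A' r : ℕ) : Bool :=
  allR (fun x => or (or (Nat.beq x (nat_lit 0)) (or (not (tb A x)) (tb A' x)))
    (or (Nat.beq x r)
      (or (and (and (Nat.blt (lin cs x) (nat_lit 256)) (not (tb A' (lin cs x))))
        (Nat.blt (tabl t (lin cs x)) (tabl t x)))
      (and (and (Nat.blt (lin ds x) (nat_lit 256)) (not (tb A' (lin ds x))))
        (Nat.blt (tabl t (lin ds x)) (tabl t x)))))) (nat_lit 256)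

theorem orbit_step (cs ds : List ℕ) (X : ℕ) (As : List ℕ) (hc : symCheck cs X As = true)
    (hd : symCheck ds X As = true) (t A A' r p : ℕ) (hA : A ∈ As)
    (ho : orbCheck cs ds t A A' r = true) (hr : r.testBit p = true) (hp : p < 13)
    (hl : lvl1 X A r p = true) (n : ℕ) (U D : Finset ℕ) (hV : Vd X U D) (hAll : All A U)
    (x : ℕ) (hx : x ∈ U) (hx0 : x ≠ 0) (hx2 : x < 256) (hxA : A'.testBit x = false)
    (hn : tabl t x ≤ n) : False := by
  induction n generalizing U D x with
  | zero =>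
    have h1 := allR_spec _ _ ho x hx2
    simp only [tb_eq, Bool.or_eq_true, Bool.and_eq_true, Bool.not_eq_true', hxA, hAll x hx hx0]
      at h1
    rcases h1 with (h1 | (h1 | h1)) | (h1 | (⟨_, h1⟩ | ⟨_, h1⟩))
    · exact absurd (Nat.eq_of_beq_eq_true h1) hx0
    · exact absurd h1 (by simp)
    · exact absurd h1 (by simp)
    · have := Nat.eq_of_beq_eq_true h1
      subst this
      exact lvl1_spec X A x p hl hp hr U D hV hAll hx
    · have h2 : tabl t (lin cs x) < tabl t x := Nat.le_of_ble_eq_true h1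
      omega
    · have h2 : tabl t (lin ds x) < tabl t x := Nat.le_of_ble_eq_true h1
      omega
  | succ n ih =>
    have key : ∀ es : List ℕ, symCheck es X As = true → lin es x < 256 →
        A'.testBit (lin es x) = false → tabl t (lin es x) < tabl t x → False := by
      intro es he h2 h3 h4
      have hs := symCheck_spec es X As he
      refine ih _ _ (move es X As he U D hV) ?_ (lin es x)
        (Finset.mem_image_of_mem _ hx) ?_ h2 h3 (by omega)
      · intro u hu hu0
        rw [Finset.mem_image] at hu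
        obtain ⟨a, ha, rfl⟩ := hu
        have ha0 : a ≠ 0 := by
          rintro rfl
          apply hu0
          have := lin_add es 0 0
          rw [Nat.xor_self, Nat.xor_self] at this
          exact this
        exact (hs a (hV.lt a ha)).2.2.2 A hA ha0 (hAll a ha ha0)
      · intro h5
        exact hx0 ((hs x (hV.lt x hx)).1 h5)
    have h1 := allR_spec _ _ ho x hx2
    simp only [tb_eq, Bool.or_eq_true, Bool.and_eq_true, Bool.not_eq_true', hxA, hAll x hx hx0]
      at h1
    rcases h1 with (h1 | (h1 | h1)) | (h1 | (⟨⟨h2, h3⟩, h1⟩ | ⟨⟨h2, h3⟩, h1⟩))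
    · exact absurd (Nat.eq_of_beq_eq_true h1) hx0
    · exact absurd h1 (by simp)
    · exact absurd h1 (by simp)
    · have := Nat.eq_of_beq_eq_true h1
      subst this
      exact lvl1_spec X A x p hl hp hr U D hV hAll hx
    · exact key cs hc (Nat.le_of_ble_eq_true h2) h3 (Nat.le_of_ble_eq_true h1)
    · exact key ds hd (Nat.le_of_ble_eq_true h2) h3 (Nat.le_of_ble_eq_true h1)

/-- passing from one allowed set to the next -/
theorem all_next (cs ds : List ℕ) (X : ℕ) (As : List ℕ) (hc : symCheck cs X As = true)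
    (hd : symCheck ds X As = true) (t A A' r p : ℕ) (hA : A ∈ As)
    (ho : orbCheck cs ds t A A' r = true) (hr : r.testBit p = true) (hp : p < 13)
    (hl : lvl1 X A r p = true) (hhi : A >>> 256 = A' >>> 256)
    (U D : Finset ℕ) (hV : Vd X U D) (hAll : All A U) : All A' U := by
  intro x hx hx0
  by_contra hxA
  have hxA' : A'.testBit x = false := by simpa using hxA
  by_cases hx2 : x < 256
  · exact orbit_step cs ds X As hc hd t A A' r p hA ho hr hp hl _ U D hV hAll x hx hx0 hx2
      hxA' (le_refl _)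
  · have h1 : (A >>> 256).testBit (x - 256) = (A' >>> 256).testBit (x - 256) := by rw [hhi]
    rw [Nat.testBit_shiftRight, Nat.testBit_shiftRight, Nat.add_sub_of_le (by omega),
      hAll x hx hx0, hxA'] at h1
    exact absurd h1 (by simp)

theorem no_flat_of_last (X A : ℕ) (hA : A &&& (2 ^ 256 - 1) ≤ 1)
    (U D : Finset ℕ) (hV : Vd X U D) (hAll : All A U) : False := by
  obtain ⟨v, hv, hv0, hvs⟩ := hV.pr.exists_cand [8, 9, 10, 11, 12] (by decide)
  have hvl : v < 256 := by
    apply Nat.lt_pow_two_of_testBit (n := 8)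
    intro i hi
    by_cases h13 : i < 13
    · apply hvs
      interval_cases i <;> decide
    · exact Nat.testBit_lt_two_pow (lt_of_lt_of_le (hV.lt v hv)
        (show 2 ^ 13 ≤ 2 ^ i from Nat.pow_le_pow_right (by norm_num) (by omega)))
  have h1 : (A &&& (2 ^ 256 - 1)).testBit v = true := by
    rw [Nat.testBit_and, hAll v hv hv0, Nat.testBit_two_pow_sub_one]
    simpa using hvl
  have h2 : (A &&& (2 ^ 256 - 1)) < 2 ^ v := by
    calc _ ≤ 1 := hA
      _ < 2 ^ v := Nat.one_lt_two_pow hv0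
  rw [Nat.testBit_lt_two_pow h2] at h1
  exact absurd h1 (by simp)

end Pool.Agent.Helper56.PT
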