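import Mathlib
import Pool.Agent.Helper56.PS.Sym

set_option autoImplicit false

/-!
A weakly normal function in twelve variables has a six-dimensional flat inside its graph.
-/

namespace Pool.Agent.Helper56.PT

open Pool.Agent.Helper56.PS

/-- the label of a value -/
def lab (a : ZMod 2) : ℕ := if a = 1 then 4096 else 0

theorem lab_add (a b : ZMod 2) : lab (a + b) = lab a ^^^ lab b := by
  revert a b; decide

theorem lab_lt (a : ZMod 2) : lab a < 8192 := by
  revert a; decide

theorem weak_flat (F G X : ℕ) (hG : F ^^^ G = 2 ^ 4096 - 1) (hX : X = F <<< 4096 ||| G)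
    (h : IsWeaklyNormal 6 (bf (2 * 6) F)) : ∃ U D, Vd X U D := by
  obtain ⟨a, c, V, b, hV, hb⟩ := h
  have hP := pr_cod (2 * 6) 6 V c hV
  let φ : ℕ → ℕ := fun x => x ^^^ lab (a ⬝ᵥ vec (2 * 6) x)
  have hUlt : ∀ u ∈ codU (2 * 6) V, u < 4096 := by
    intro u hu
    rw [mem_codU] at hu
    exact hu.1
  have hDlt : ∀ u ∈ codD (2 * 6) V c, u < 4096 := by
    intro u hu
    rw [mem_codD] at hu
    exact hu.1
  have h812 : (4096 : ℕ) < 8192 := by norm_num
  have hφlt : ∀ u < 4096, φ u < 8192 := fun u hu =>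
    xor_lt _ _ (lt_trans hu h812) (lab_lt _)
  refine ⟨(codU (2 * 6) V).image φ, (codD (2 * 6) V c).image (fun x => φ x ^^^ lab b), ?_, ?_, ?_⟩
  · refine pr_map hP φ (lab b) 4096 hUlt hDlt ?_ ?_ ?_
    · intro x _ y _
      simp only [φ]
      rw [vec_xor, dotProduct_add, lab_add]
      generalize lab (a ⬝ᵥ vec (2 * 6) x) = p
      generalize lab (a ⬝ᵥ vec (2 * 6) y) = q
      rw [Nat.xor_assoc, Nat.xor_assoc, ← Nat.xor_assoc y p q, Nat.xor_comm y p,
        Nat.xor_assoc p y q]
    · intro x hx h0
      simp only [φ] at h0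
      rw [Nat.xor_eq_zero_iff] at h0
      unfold lab at h0
      split_ifs at h0 <;> omega
    · intro x hx y hy
      exact Nat.xor_lt_two_pow (n := 12) hx hy
  · intro u hu
    rw [Finset.mem_image] at hu
    obtain ⟨x, hx, rfl⟩ := hu
    exact hφlt x (hUlt x hx)
  · intro y hy
    rw [Finset.mem_image] at hy
    obtain ⟨x, hx, rfl⟩ := hy
    have hxl := hDlt x hx
    refine ⟨xor_lt _ _ (hφlt x hxl) (lab_lt _), ?_⟩
    have hval : bf (2 * 6) F (vec (2 * 6) x) = a ⬝ᵥ vec (2 * 6) x + b := by
      rw [mem_codD] at hx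
      have := hb _ hx.2
      rwa [← add_assoc, add_self_vec, zero_add] at this
    simp only [φ]
    rw [Nat.xor_assoc, ← lab_add, ← hval, hX, Nat.testBit_or, Nat.testBit_shiftLeft]
    cases hF : F.testBit x with
    | true =>
      have h1 : bf (2 * 6) F (vec (2 * 6) x) = 1 := by
        rw [bf_eq_one, cod_vec _ _ hxl]; exact hF
      rw [h1]
      have h2 : lab 1 = 2 ^ 12 := by decide
      have h3 : x.testBit 12 = false := Nat.testBit_lt_two_pow hxl
      rw [h2, add_two_pow 12 x h3]
      have h4 : x + 2 ^ 12 - 4096 = x := by omega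
      rw [h4, hF]
      simp
    | false =>
      have h1 : bf (2 * 6) F (vec (2 * 6) x) = 0 := by
        rcases zmod2_cases (bf (2 * 6) F (vec (2 * 6) x)) with h | h
        · exact h
        · rw [bf_eq_one, cod_vec _ _ hxl, hF] at h
          exact absurd h (by simp)
      rw [h1]
      have h2 : lab 0 = 0 := by decide
      rw [h2, Nat.xor_zero]
      have h3 : (F ^^^ G).testBit x = true := by
        rw [hG, Nat.testBit_two_pow_sub_one]
        simpa using hxl
      rw [Nat.testBit_xor, hF] at h3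
      have h4 : G.testBit x = true := by simpa using h3
      rw [h4, Bool.or_true]

end Pool.Agent.Helper56.PT
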